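import Pool.Agent.NH25.EL.Fun
import Pool.Agent.H667R3.W6
import Pool.Agent.Y916.EW3

/-!
# Lattices with algebraic invariants, roots of the cubic polynomial and number fields
-/

set_option autoImplicit false

open scoped PeriodPair

namespace Pool.Agent.NH25.EL

/-- the roots of the cubic polynomial -/
theorem roots_of (L : PeriodPair) : ∃ e : Fin 3 → ℂ, Function.Injective e ∧
    ∀ x : ℂ, 4 * x ^ 3 - L.g₂ * x - L.g₃ = 4 * ∏ j, (x - e j) := by
  have n1 := L.ω₁_div_two_notMem_lattice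
  have n2 := L.ω₂_div_two_notMem_lattice
  have n3 := H667R3.half_add_half_notMem L
  have n4 := H667R3.half_sub_half_notMem L
  have m1 := L.ω₁_mem_lattice
  have m2 := L.ω₂_mem_lattice
  have a1 := L.derivWeierstrassP_sq _ n1
  have a2 := L.derivWeierstrassP_sq _ n2
  have a3 := L.derivWeierstrassP_sq _ n3
  rw [H667R3.wp'_half_eq_zero L m1] at a1
  rw [H667R3.wp'_half_eq_zero L m2] at a2
  have h3 : ℘'[L] (L.ω₁ / 2 + L.ω₂ / 2) = 0 := by
    have := H667R3.wp'_half_eq_zero L (add_mem m1 m2)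
    rwa [add_div] at this
  rw [h3] at a3
  set e₁ := ℘[L] (L.ω₁ / 2) with he₁
  set e₂ := ℘[L] (L.ω₂ / 2) with he₂
  set e₃ := ℘[L] (L.ω₁ / 2 + L.ω₂ / 2) with he₃
  have d12 : e₁ ≠ e₂ := by
    intro h
    rcases (H667R3.wp_eq_iff L n1 n2).1 h with h | h
    · exact n3 h
    · exact n4 h
  have d13 : e₁ ≠ e₃ := by
    intro h
    rcases (H667R3.wp_eq_iff L n1 n3).1 h with h | h
    · apply n2
      have h4 := sub_mem h m1
      rwa [show L.ω₁ / 2 + (L.ω₁ / 2 + L.ω₂ / 2) - L.ω₁ = L.ω₂ / 2 by ring] at h4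
    · apply n2
      have h4 := neg_mem h
      rwa [show -(L.ω₁ / 2 - (L.ω₁ / 2 + L.ω₂ / 2)) = L.ω₂ / 2 by ring] at h4
  have d23 : e₂ ≠ e₃ := by
    intro h
    rcases (H667R3.wp_eq_iff L n2 n3).1 h with h | h
    · apply n1
      have h4 := sub_mem h m2
      rwa [show L.ω₂ / 2 + (L.ω₁ / 2 + L.ω₂ / 2) - L.ω₂ = L.ω₁ / 2 by ring] at h4
    · apply n1
      have h4 := neg_mem h
      rwa [show -(L.ω₂ / 2 - (L.ω₁ / 2 + L.ω₂ / 2)) = L.ω₁ / 2 by ring] at h4
  have b1 : 4 * (e₁ ^ 2 + e₁ * e₂ + e₂ ^ 2) - L.g₂ = 0 := by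
    have h4 : (e₁ - e₂) * (4 * (e₁ ^ 2 + e₁ * e₂ + e₂ ^ 2) - L.g₂) = 0 := by linear_combination a2 - a1
    exact (mul_eq_zero.1 h4).resolve_left (sub_ne_zero.2 d12)
  have b2 : 4 * (e₁ ^ 2 + e₁ * e₃ + e₃ ^ 2) - L.g₂ = 0 := by
    have h4 : (e₁ - e₃) * (4 * (e₁ ^ 2 + e₁ * e₃ + e₃ ^ 2) - L.g₂) = 0 := by linear_combination a3 - a1
    exact (mul_eq_zero.1 h4).resolve_left (sub_ne_zero.2 d13)
  have b3 : e₁ + e₂ + e₃ = 0 := by
    have h4 : (e₂ - e₃) * (e₁ + e₂ + e₃) = 0 := by linear_combination (1 / 4 : ℂ) * b1 - (1 / 4 : ℂ) * b2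
    exact (mul_eq_zero.1 h4).resolve_left (sub_ne_zero.2 d23)
  refine ⟨![e₁, e₂, e₃], ?_, fun x => ?_⟩
  · intro i j hij
    fin_cases i <;> fin_cases j <;> simp at hij ⊢
    · exact d12 hij
    · exact d13 hij
    · exact d12 hij.symm
    · exact d23 hij
    · exact d13 hij.symm
    · exact d23 hij.symm
  · rw [Fin.prod_univ_three]
    simp only [Matrix.cons_val_zero, Matrix.cons_val_one, Matrix.cons_val]
    have h5 : e₃ = -e₁ - e₂ := by linear_combination b3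
    have h6 : L.g₂ = 4 * (e₁ ^ 2 + e₁ * e₂ + e₂ ^ 2) := by linear_combination -b1
    have h7 : L.g₃ = 4 * e₁ ^ 3 - L.g₂ * e₁ := by linear_combination a1
    rw [h7, h5, h6]
    ring

/-- algebraic numbers in a number field -/
theorem number_field {σ : Type} [Finite σ] (x : σ → ℂ) (hx : ∀ s, IsAlgebraic ℚ (x s)) :
    ∃ (L : Type) (_ : Field L) (_ : NumberField L) (_ : Algebra L ℂ) (x' : σ → L), ∀ s, algebraMap L ℂ (x' s) = x s := by
  have h1 : FiniteDimensional ℚ (IntermediateField.adjoin ℚ (Set.range x)) := by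
    have : Finite (Set.range x) := Set.finite_range x
    refine IntermediateField.finiteDimensional_adjoin ?_
    rintro _ ⟨s, rfl⟩
    exact (hx s).isIntegral
  have h2 : NumberField (IntermediateField.adjoin ℚ (Set.range x)) := ⟨⟩
  exact ⟨IntermediateField.adjoin ℚ (Set.range x), inferInstance, h2, inferInstance,
    fun s => ⟨x s, IntermediateField.subset_adjoin ℚ _ ⟨s, rfl⟩⟩, fun s => rfl⟩

/-- the data -/
structure Cfg (k n m : ℕ) where
  Λ : Fin k → Fin n → PeriodPair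
  θ : Fin k → Fin n → ℂ
  c : Fin k → Fin m → ℂ
  alg₂ : ∀ l i, IsAlgebraic ℚ (Λ l i).g₂
  alg₃ : ∀ l i, IsAlgebraic ℚ (Λ l i).g₃
  algθ : ∀ l i, IsAlgebraic ℚ (θ l i)
  algc : ∀ l j, IsAlgebraic ℚ (c l j)
  ne : ∀ l i, 4 * θ l i ^ 3 - (Λ l i).g₂ * θ l i - (Λ l i).g₃ ≠ 0
  inj : ∀ l, Function.Injective fun i => (θ l i, (Λ l i).g₂, (Λ l i).g₃)
  injc : ∀ l, Function.Injective (c l)

variable {k n m : ℕ}

/-- the choices -/
theorem Cfg.choices (F : Cfg k n m) : ∃ (L : Type) (_ : Field L) (_ : NumberField L) (_ : Algebra L ℂ)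
    (a : Fin k → Fin n → Fin 3 → L) (θ : Fin k → Fin n → L) (c : Fin k → Fin m → L) (u : Fin k → Fin n → ℂ),
    (∀ l i, algebraMap L ℂ (θ l i) = F.θ l i) ∧ (∀ l j, algebraMap L ℂ (c l j) = F.c l j) ∧
    (∀ l i, u l i ∉ (F.Λ l i).lattice ∧ ℘[F.Λ l i] (u l i) = F.θ l i ∧ ℘'[F.Λ l i] (u l i) ≠ 0) ∧
    (∀ l i j, a l i j ≠ 0) ∧ (∀ l i, Function.Injective (a l i)) ∧ (∀ l, Function.Injective fun i => cu (a l i)) ∧
    (∀ l, Function.Injective (c l)) ∧
    (∀ l i, ℘'[F.Λ l i] (u l i) ^ 2 = -4 * ∏ j, algebraMap L ℂ (a l i j)) ∧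
    (∀ l i (x : ℂ), 4 * (F.θ l i + x) ^ 3 - (F.Λ l i).g₂ * (F.θ l i + x) - (F.Λ l i).g₃ =
      4 * ∏ j, (x - algebraMap L ℂ (a l i j))) := by
  classical
  choose e he1 he2 using fun l i => roots_of (F.Λ l i)
  choose u hu1 hu2 using fun l i => H667R3.exists_wp_eq (F.Λ l i) (F.θ l i)
  have hp2 : ∀ l i, ℘'[F.Λ l i] (u l i) ^ 2 = 4 * F.θ l i ^ 3 - (F.Λ l i).g₂ * F.θ l i - (F.Λ l i).g₃ := by
    intro l i
    rw [(F.Λ l i).derivWeierstrassP_sq _ (hu1 l i), hu2]
  have hea : ∀ l i j, IsAlgebraic ℚ (e l i j) := by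
    intro l i j
    have h1 : 4 * e l i j ^ 3 - (F.Λ l i).g₂ * e l i j - (F.Λ l i).g₃ = 0 := by
      rw [he2, Finset.prod_eq_zero (Finset.mem_univ j) (sub_self _), mul_zero]
    -- algebraic over the field of algebraic numbers
    set A := algebraicClosure ℚ ℂ with hA
    have hg2 : (F.Λ l i).g₂ ∈ A := (mem_algebraicClosure_iff).2 (F.alg₂ l i)
    have hg3 : (F.Λ l i).g₃ ∈ A := (mem_algebraicClosure_iff).2 (F.alg₃ l i)
    have h2 : IsAlgebraic A (e l i j) := by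
      refine ⟨Polynomial.C 4 * Polynomial.X ^ 3 - Polynomial.C (⟨_, hg2⟩ : A) * Polynomial.X - Polynomial.C (⟨_, hg3⟩ : A), ?_, ?_⟩
      · intro h0
        have h4 := congrArg (fun p => Polynomial.coeff p 3) h0
        simp [Polynomial.coeff_X, Polynomial.coeff_C] at h4
      · simp only [map_sub, map_mul, Polynomial.aeval_C, map_pow, Polynomial.aeval_X]
        rw [← h1]
        simp only [map_ofNat]
        rfl
    have h3 : Algebra.IsAlgebraic ℚ A := algebraicClosure.isAlgebraic ℚ ℂ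
    exact h2.restrictScalars ℚ
  obtain ⟨L, i1, i2, i3, x', hx'⟩ := number_field
    (σ := (Fin k × Fin n × Fin 3) ⊕ ((Fin k × Fin n) ⊕ (Fin k × Fin m)))
    (Sum.elim (fun v => e v.1 v.2.1 v.2.2 - F.θ v.1 v.2.1) (Sum.elim (fun v => F.θ v.1 v.2) fun v => F.c v.1 v.2)) (by
      rintro (v | v | v)
      · exact (hea _ _ _).sub (F.algθ _ _)
      · exact F.algθ _ _
      · exact F.algc _ _)
  refine ⟨L, i1, i2, i3, fun l i j => x' (Sum.inl (l, i, j)), fun l i => x' (Sum.inr (Sum.inl (l, i))),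
    fun l j => x' (Sum.inr (Sum.inr (l, j))), u, fun l i => hx' _, fun l j => hx' _, fun l i => ⟨hu1 l i, hu2 l i, ?_⟩,
    fun l i j => ?_, fun l i => ?_, fun l => ?_, fun l => ?_, fun l i => ?_, fun l i x => ?_⟩
  · intro h0
    have h1 := hp2 l i
    rw [h0, zero_pow two_ne_zero] at h1
    exact F.ne l i h1.symm
  · intro h0
    have h1 := hx' (Sum.inl (l, i, j))
    simp only at h0
    rw [h0, map_zero] at h1
    have h2 : e l i j = F.θ l i := by
      simp only [Sum.elim_inl] at h1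
      linear_combination -h1
    apply F.ne l i
    rw [he2, Finset.prod_eq_zero (Finset.mem_univ j) (by rw [h2, sub_self]), mul_zero]
  · intro j j' h
    have h1 := hx' (Sum.inl (l, i, j))
    have h2 := hx' (Sum.inl (l, i, j'))
    simp only [Sum.elim_inl] at h1 h2
    simp only at h
    rw [h, h2] at h1
    exact (he1 l i (sub_left_injective h1)).symm
  · have hcu : ∀ i (x : ℂ), (cu fun j => x' (Sum.inl (l, i, j))).eval x =
        4 * (F.θ l i + x) ^ 3 - (F.Λ l i).g₂ * (F.θ l i + x) - (F.Λ l i).g₃ := by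
      intro i x
      rw [he2]
      unfold cu
      rw [Polynomial.eval_mul, Polynomial.eval_C, Polynomial.eval_prod]
      congr 1
      refine Finset.prod_congr rfl fun j _ => ?_
      have h1 := hx' (Sum.inl (l, i, j))
      simp only [Sum.elim_inl] at h1
      rw [Polynomial.eval_sub, Polynomial.eval_X, Polynomial.eval_C, h1]
      ring
    intro i i' h
    simp only at h
    have h1 : ∀ x : ℂ, 4 * (F.θ l i + x) ^ 3 - (F.Λ l i).g₂ * (F.θ l i + x) - (F.Λ l i).g₃ =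
        4 * (F.θ l i' + x) ^ 3 - (F.Λ l i').g₂ * (F.θ l i' + x) - (F.Λ l i').g₃ := by
      intro x
      rw [← hcu, ← hcu, h]
    have e0 := h1 0
    have e1 := h1 1
    have e2 := h1 (-1)
    have h2 : F.θ l i = F.θ l i' := by linear_combination (1 / 24 : ℂ) * e1 + (1 / 24 : ℂ) * e2 - (1 / 12 : ℂ) * e0
    rw [h2] at e0 e1
    have h3 : (F.Λ l i).g₂ = (F.Λ l i').g₂ := by linear_combination e0 - e1
    have h4 : (F.Λ l i).g₃ = (F.Λ l i').g₃ := by
      rw [h3] at e0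
      linear_combination -e0
    exact F.inj l (Prod.ext h2 (Prod.ext h3 h4))
  · intro j j' h
    have h1 := hx' (Sum.inr (Sum.inr (l, j)))
    have h2 := hx' (Sum.inr (Sum.inr (l, j')))
    simp only [Sum.elim_inr] at h1 h2
    simp only at h
    rw [h, h2] at h1
    exact (F.injc l h1).symm
  · rw [hp2, he2, Fin.prod_univ_three, Fin.prod_univ_three, hx', hx', hx']
    simp only [Sum.elim_inl]
    ring
  · rw [he2]
    congr 1
    refine Finset.prod_congr rfl fun j _ => ?_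
    rw [hx']
    simp only [Sum.elim_inl]
    ring

end Pool.Agent.NH25.EL
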