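import Pool.Agent.NH25.DL.Nrm
import Pool.Agent.Y921.DB.JP

/-!
# The systems of elliptic integrals and logarithms, regular at the centre
-/

set_option autoImplicit false

open PowerSeries

namespace Pool.Agent.NH25.EL

open Pool.Agent.Y921.DB Pool.Agent.NH25.DL Pool.Agent.Y113

variable {L : Type} [Field L] [NumberField L]

section int

/-- the primitive -/
noncomputable def Pr (g : L⟦X⟧) : L⟦X⟧ := X * Had g (PowerSeries.map (algebraMap ℚ L) (Pool.Agent.Y921.DB.Ls (-1)))

lemma coeff_Pr (g : L⟦X⟧) (m : ℕ) : coeff (m + 1) (Pr g) = coeff m g * ((m : L) + 1)⁻¹ := by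
  unfold Pr
  rw [coeff_succ_X_mul, coeff_Had, coeff_map, Pool.Agent.Y921.DB.Ls, coeff_mk, eq_ratCast]
  push_cast
  rw [sub_neg_eq_add, one_div]

lemma coeff_Pr_zero (g : L⟦X⟧) : coeff 0 (Pr g) = 0 := by
  unfold Pr
  simp

lemma der_Pr (g : L⟦X⟧) : d⁄dX L (Pr g) = g := by
  ext m
  rw [coeff_derivative, coeff_Pr]
  have : (m : L) + 1 ≠ 0 := Nat.cast_add_one_ne_zero m
  field_simp

lemma GFn_Pr {g : L⟦X⟧} (h : GFn g) : GFn (Pr g) := by
  refine GFn.X.mul (h.had (GFn.of_rat (SDc_Ls (-1) fun m h0 => ?_)))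
  have h1 : (0 : ℚ) ≤ m := Nat.cast_nonneg m
  linarith

end int

section ell

variable (a : Fin 3 → L) (θ : L)

/-- the square root -/
noncomputable def wS : L⟦X⟧ := Pool.Agent.Y921.DB.Bp a fun _ => 1 / 2

/-- the inverse of the square root -/
noncomputable def wI : L⟦X⟧ := Pool.Agent.Y921.DB.Bp a fun _ => -(1 / 2)

lemma w_mul : wS a * wI a = 1 := Bp_mul_neg a fun _ => 1 / 2

lemma wI_sq : wI a * wI a = ∏ j, ge (a j) := by
  unfold wI Pool.Agent.Y921.DB.Bp
  rw [← Finset.prod_mul_distrib]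
  refine Finset.prod_congr rfl fun j _ => ?_
  rw [Bn_mul, ge]
  norm_num

lemma fp_wI (ha : ∀ j, a j ≠ 0) : (fp a : L⟦X⟧) * wI a = C (-∏ j, a j) * wS a := by
  have h1 : (fp a : L⟦X⟧) * ∏ j, ge (a j) = C (-∏ j, a j) := by
    unfold fp
    rw [Fin.prod_univ_three, Fin.prod_univ_three, Fin.prod_univ_three, Polynomial.coe_mul, Polynomial.coe_mul, coe_XC,
      coe_XC, coe_XC]
    have h2 : ∀ j, (X - C (a j) : L⟦X⟧) * ge (a j) = C (-a j) := by
      intro j
      have h3 := ge_mul (a j)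
      have h4 : C (a j) * C (a j)⁻¹ = (1 : L⟦X⟧) := by rw [← map_mul, mul_inv_cancel₀ (ha j), map_one]
      rw [map_neg]
      linear_combination (-C (a j)) * h3 - (X * ge (a j)) * h4
    have h5 : (X - C (a 0)) * (X - C (a 1)) * (X - C (a 2)) * (ge (a 0) * ge (a 1) * ge (a 2)) =
        ((X - C (a 0)) * ge (a 0)) * ((X - C (a 1)) * ge (a 1)) * ((X - C (a 2)) * ge (a 2)) := by ring
    rw [h5, h2, h2, h2, ← map_mul, ← map_mul]
    congr 1
    ring
  rw [← wI_sq] at h1
  have h2 := w_mul a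
  calc (fp a : L⟦X⟧) * wI a = (fp a : L⟦X⟧) * (wI a * wI a) * wS a := by
        linear_combination (-(fp a : L⟦X⟧) * wI a) * h2
    _ = _ := by rw [h1]

/-- the first integral -/
noncomputable def F0 : L⟦X⟧ := Pr (wI a)

/-- the second integral -/
noncomputable def F1 : L⟦X⟧ := Pr ((C θ + X) * wI a)

/-- the block -/
noncomputable def HE : Matrix (Fin 3) (Fin 3) L⟦X⟧ := !![1, 0, 0; 0, 1, 0; F0 a, F1 a θ, wS a]

lemma GFn_wS : GFn (wS a) := GFn_Bp a _

lemma GFn_wI : GFn (wI a) := GFn_Bp a _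

lemma GFn_F0 : GFn (F0 a) := GFn_Pr (GFn_wI a)

lemma GFn_F1 : GFn (F1 a θ) := GFn_Pr (((GFn.const θ).add GFn.X).mul (GFn_wI a))

/-- the inverse block -/
noncomputable def WE : Matrix (Fin 3) (Fin 3) L⟦X⟧ := !![1, 0, 0; 0, 1, 0; -(F0 a * wI a), -(F1 a θ * wI a), wI a]

theorem lfamE (ha : ∀ j, a j ≠ 0) : LFam (0 : Matrix (Fin 3) (Fin 3) ℤ) (HE a θ) where
  nil := by simp
  one := fun i j => by
    have h1 : coeff 0 (wS a) = 1 := by
      unfold wS Pool.Agent.Y921.DB.Bp
      rw [coeff_zero_eq_constantCoeff_apply, map_prod]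
      exact Finset.prod_eq_one fun j _ => Bn_coeff_zero _ _
    fin_cases i <;> fin_cases j <;> simp [HE, F0, F1, coeff_Pr_zero, h1, -coeff_zero_eq_constantCoeff]
  ode := by
    refine ⟨fp a, ![![0, 0, 0], ![0, 0, 0], ![Polynomial.X * Polynomial.C (-∏ j, a j),
      Polynomial.X * (Polynomial.C (-∏ j, a j) * (Polynomial.C θ + Polynomial.X)),
      Polynomial.X * ∑ j, Polynomial.C (1 / 2 : L) * fe a j]], ?_, fun i j => ?_⟩
    · unfold fp
      rw [Polynomial.coeff_zero_eq_eval_zero, Polynomial.eval_prod]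
      refine Finset.prod_ne_zero_iff.2 fun j _ => ?_
      simp [ha j]
    · have h1 := fp_wI a ha
      have h2 := Bp_ode a (fun _ => (1 / 2 : ℚ)) ha
      have h3 : Pool.Agent.Y921.DB.Bp a (fun _ => (1 / 2 : ℚ)) = wS a := rfl
      rw [h3] at h2
      fin_cases i <;> fin_cases j
      · simp [HE, Fin.sum_univ_three]
      · simp [HE, Fin.sum_univ_three]
      · simp [HE, Fin.sum_univ_three]
      · simp [HE, Fin.sum_univ_three]
      · simp [HE, Fin.sum_univ_three]
      · simp [HE, Fin.sum_univ_three]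
      · simp only [HE, Fin.sum_univ_three, F0, Matrix.of_apply, Matrix.cons_val', Matrix.cons_val_zero, Matrix.cons_val_one,
          Matrix.cons_val, Fin.isValue, Matrix.zero_apply, Int.cast_zero, map_zero, zero_mul, add_zero, Polynomial.coe_zero,
          mul_zero, zero_add, Fin.reduceFinMk, Fin.zero_eta, Fin.mk_one]
        rw [show PowerSeries.derivative L (Pr (wI a)) = wI a from der_Pr _, Polynomial.coe_mul, Polynomial.coe_X,
          Polynomial.coe_C]
        linear_combination X * h1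
      · simp only [HE, Fin.sum_univ_three, F1, Matrix.of_apply, Matrix.cons_val', Matrix.cons_val_zero, Matrix.cons_val_one,
          Matrix.cons_val, Fin.isValue, Matrix.zero_apply, Int.cast_zero, map_zero, zero_mul, add_zero, Polynomial.coe_zero,
          mul_zero, zero_add, Fin.reduceFinMk, Fin.zero_eta, Fin.mk_one]
        rw [show PowerSeries.derivative L (Pr ((C θ + X) * wI a)) = (C θ + X) * wI a from der_Pr _, Polynomial.coe_mul,
          Polynomial.coe_X, Polynomial.coe_mul, Polynomial.coe_add, Polynomial.coe_X, Polynomial.coe_C, Polynomial.coe_C]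
        linear_combination (X * (C θ + X)) * h1
      · simp only [HE, Fin.sum_univ_three, Matrix.of_apply, Matrix.cons_val', Matrix.cons_val_zero, Matrix.cons_val_one,
          Matrix.cons_val, Fin.isValue, Matrix.zero_apply, Int.cast_zero, map_zero, zero_mul, add_zero, Polynomial.coe_zero,
          mul_zero, zero_add, Fin.reduceFinMk, Fin.zero_eta, Fin.mk_one]
        have h4 : ((Polynomial.C (1 / 2 : L) * fe a 0 + Polynomial.C (1 / 2 : L) * fe a 1 +
            Polynomial.C (1 / 2 : L) * fe a 2 : Polynomial L) : L⟦X⟧) =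
            ∑ j, C (((1 / 2 : ℚ) : L)) * (fe a j : L⟦X⟧) := by
          rw [Fin.sum_univ_three]
          simp only [Polynomial.coe_add, Polynomial.coe_mul, Polynomial.coe_C]
          push_cast
          rfl
        rw [Polynomial.coe_mul, Polynomial.coe_X, h4]
        have h5 : PowerSeries.derivative L (wS a) = d⁄dX L (wS a) := rfl
        rw [h5]
        linear_combination X * h2
  gfun := fun i j => by
    fin_cases i <;> fin_cases j
    · exact GFn.one
    · exact GFn.zero
    · exact GFn.zero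
    · exact GFn.zero
    · exact GFn.one
    · exact GFn.zero
    · exact GFn_F0 a
    · exact GFn_F1 a θ
    · exact GFn_wS a
  inv := by
    refine ⟨WE a θ, ?_, fun i j => ?_⟩
    · have h1 := w_mul a
      refine Matrix.ext fun i j => ?_
      fin_cases i <;> fin_cases j <;>
        simp [HE, WE, Matrix.mul_apply, Fin.sum_univ_three]
      · linear_combination (-F0 a) * h1
      · linear_combination (-F1 a θ) * h1
      · exact h1
    · fin_cases i <;> fin_cases j
      · exact GFn.one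
      · exact GFn.zero
      · exact GFn.zero
      · exact GFn.zero
      · exact GFn.one
      · exact GFn.zero
      · exact ((GFn_F0 a).mul (GFn_wI a)).neg
      · exact ((GFn_F1 a θ).mul (GFn_wI a)).neg
      · exact GFn_wI a

end ell

section log

variable (c : L)

/-- the logarithm of `1 + z / c` -/
noncomputable def lg : L⟦X⟧ := Pr (C c⁻¹ * ge (-c))

lemma GFn_lg : GFn (lg c) := GFn_Pr ((GFn.const _).mul (GFn_Bn _ _))

/-- the block -/
noncomputable def HL : Matrix (Fin 2) (Fin 2) L⟦X⟧ := !![1, lg c; 0, 1]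

theorem lfamL (hc : c ≠ 0) : LFam (0 : Matrix (Fin 2) (Fin 2) ℤ) (HL c) where
  nil := by simp
  one := fun i j => by
    fin_cases i <;> fin_cases j <;> simp [HL, lg, coeff_Pr_zero, -coeff_zero_eq_constantCoeff]
  ode := by
    refine ⟨Polynomial.X + Polynomial.C c, ![![0, Polynomial.X], ![0, 0]], ?_, fun i j => ?_⟩
    · simpa using hc
    · have h1 : (X + C c) * (C c⁻¹ * ge (-c)) = (1 : L⟦X⟧) := by
        have h2 := ge_mul (-c)
        have h3 : C c * C c⁻¹ = (1 : L⟦X⟧) := by rw [← map_mul, mul_inv_cancel₀ hc, map_one]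
        rw [inv_neg, map_neg] at h2
        linear_combination h2 + ge (-c) * h3
      fin_cases i <;> fin_cases j
      · simp [HL, Fin.sum_univ_two]
      · simp only [HL, Fin.sum_univ_two, Matrix.of_apply, Matrix.cons_val', Matrix.cons_val_zero, Matrix.cons_val_one,
          Matrix.cons_val, Fin.isValue, Matrix.zero_apply, Int.cast_zero, map_zero, zero_mul, add_zero, Polynomial.coe_zero,
          mul_zero, zero_add, Fin.zero_eta, Fin.mk_one, Matrix.cons_val_fin_one]
        rw [show PowerSeries.derivative L (lg c) = C c⁻¹ * ge (-c) from der_Pr _, Polynomial.coe_add, Polynomial.coe_X,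
          Polynomial.coe_C]
        linear_combination X * h1
      · simp [HL, Fin.sum_univ_two]
      · simp [HL, Fin.sum_univ_two]
  gfun := fun i j => by
    fin_cases i <;> fin_cases j
    · exact GFn.one
    · exact GFn_lg c
    · exact GFn.zero
    · exact GFn.one
  inv := by
    refine ⟨!![1, -lg c; 0, 1], ?_, fun i j => ?_⟩
    · refine Matrix.ext fun i j => ?_
      fin_cases i <;> fin_cases j <;> simp [HL, Matrix.mul_apply, Fin.sum_univ_two]
    · fin_cases i <;> fin_cases j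
      · exact GFn.one
      · exact (GFn_lg c).neg
      · exact GFn.zero
      · exact GFn.one

end log

section sum

variable {n₁ n₂ : ℕ}

/-- block sum -/
def BB {R : Type} [Zero R] (H₁ : Matrix (Fin n₁) (Fin n₁) R) (H₂ : Matrix (Fin n₂) (Fin n₂) R) :
    Matrix (Fin (n₁ + n₂)) (Fin (n₁ + n₂)) R := fun i j =>
  Fin.addCases (fun i => Fin.addCases (fun j => H₁ i j) (fun _ => 0) j) (fun i => Fin.addCases (fun _ => 0) (fun j => H₂ i j) j) i

section
variable {R : Type} [Zero R] (H₁ : Matrix (Fin n₁) (Fin n₁) R) (H₂ : Matrix (Fin n₂) (Fin n₂) R)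

lemma BB_ll (i j : Fin n₁) : BB H₁ H₂ (Fin.castAdd n₂ i) (Fin.castAdd n₂ j) = H₁ i j := by
  simp [BB]

lemma BB_lr (i : Fin n₁) (j : Fin n₂) : BB H₁ H₂ (Fin.castAdd n₂ i) (Fin.natAdd n₁ j) = 0 := by
  simp [BB]

lemma BB_rl (i : Fin n₂) (j : Fin n₁) : BB H₁ H₂ (Fin.natAdd n₁ i) (Fin.castAdd n₂ j) = 0 := by
  simp [BB]

lemma BB_rr (i j : Fin n₂) : BB H₁ H₂ (Fin.natAdd n₁ i) (Fin.natAdd n₁ j) = H₂ i j := by
  simp [BB]

end

lemma BB_mul {R : Type} [Semiring R] (H₁ W₁ : Matrix (Fin n₁) (Fin n₁) R) (H₂ W₂ : Matrix (Fin n₂) (Fin n₂) R) :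
    BB H₁ H₂ * BB W₁ W₂ = BB (H₁ * W₁) (H₂ * W₂) := by
  refine Matrix.ext fun i j => ?_
  rw [Matrix.mul_apply, Fin.sum_univ_add]
  refine Fin.addCases (fun i => ?_) (fun i => ?_) i <;> refine Fin.addCases (fun j => ?_) (fun j => ?_) j
  · simp only [BB_ll, BB_lr, BB_rl, mul_zero, zero_mul, Finset.sum_const_zero, add_zero, Matrix.mul_apply]
  · simp only [BB_ll, BB_lr, BB_rr, mul_zero, zero_mul, Finset.sum_const_zero, add_zero]
  · simp only [BB_ll, BB_rl, BB_rr, mul_zero, zero_mul, Finset.sum_const_zero, add_zero]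
  · simp only [BB_rr, BB_lr, BB_rl, mul_zero, zero_mul, Finset.sum_const_zero, zero_add, Matrix.mul_apply]

lemma BB_one {R : Type} [Semiring R] : BB (1 : Matrix (Fin n₁) (Fin n₁) R) (1 : Matrix (Fin n₂) (Fin n₂) R) = 1 := by
  refine Matrix.ext fun i j => ?_
  refine Fin.addCases (fun i => ?_) (fun i => ?_) i <;> refine Fin.addCases (fun j => ?_) (fun j => ?_) j
  · rw [BB_ll, Matrix.one_apply, Matrix.one_apply]
    simp
  · rw [BB_lr, Matrix.one_apply, if_neg]
    intro h
    have := congrArg Fin.val h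
    simp at this
    omega
  · rw [BB_rl, Matrix.one_apply, if_neg]
    intro h
    have := congrArg Fin.val h
    simp at this
    omega
  · rw [BB_rr, Matrix.one_apply, Matrix.one_apply]
    simp

theorem lfam_BB {H₁ : Matrix (Fin n₁) (Fin n₁) L⟦X⟧} {H₂ : Matrix (Fin n₂) (Fin n₂) L⟦X⟧}
    (h₁ : LFam (0 : Matrix (Fin n₁) (Fin n₁) ℤ) H₁) (h₂ : LFam (0 : Matrix (Fin n₂) (Fin n₂) ℤ) H₂) :
    LFam (0 : Matrix (Fin (n₁ + n₂)) (Fin (n₁ + n₂)) ℤ) (BB H₁ H₂) where
  nil := by
    rcases Nat.eq_zero_or_pos (n₁ + n₂) with h0 | h0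
    · refine Matrix.ext fun i => ?_
      exact absurd i.2 (by omega)
    · exact zero_pow (by omega)
  one := fun i j => by
    refine Fin.addCases (fun i => ?_) (fun i => ?_) i <;> refine Fin.addCases (fun j => ?_) (fun j => ?_) j
    · rw [BB_ll, h₁.one]
      simp
    · rw [BB_lr, if_neg, map_zero]
      intro h
      have := congrArg Fin.val h
      simp at this
      omega
    · rw [BB_rl, if_neg, map_zero]
      intro h
      have := congrArg Fin.val h
      simp at this
      omega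
    · rw [BB_rr, h₂.one]
      simp
  ode := by
    obtain ⟨T₁, A₁, hT₁, h3⟩ := h₁.ode
    obtain ⟨T₂, A₂, hT₂, h4⟩ := h₂.ode
    refine ⟨T₁ * T₂, BB (fun i j => T₂ * A₁ i j) (fun i j => T₁ * A₂ i j), ?_, fun i j => ?_⟩
    · rw [Polynomial.mul_coeff_zero]
      exact mul_ne_zero hT₁ hT₂
    · simp only [Matrix.zero_apply, Int.cast_zero, map_zero, zero_mul, Finset.sum_const_zero, add_zero] at h3 h4 ⊢
      rw [Fin.sum_univ_add]
      refine Fin.addCases (fun i => ?_) (fun i => ?_) i <;> refine Fin.addCases (fun j => ?_) (fun j => ?_) j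
      · simp only [BB_ll, BB_lr, BB_rl, mul_zero, zero_mul, Finset.sum_const_zero, add_zero]
        rw [Polynomial.coe_mul]
        have h5 : ∑ l, H₁ i l * ((T₂ * A₁ l j : Polynomial L) : L⟦X⟧) = (T₂ : L⟦X⟧) * ∑ l, H₁ i l * (A₁ l j : L⟦X⟧) := by
          rw [Finset.mul_sum]
          exact Finset.sum_congr rfl fun l _ => by rw [Polynomial.coe_mul]; ring
        rw [h5, ← h3]
        ring
      · simp only [BB_ll, BB_lr, BB_rr, mul_zero, zero_mul, Finset.sum_const_zero, add_zero, Polynomial.coe_zero, map_zero]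
      · simp only [BB_ll, BB_rl, BB_rr, mul_zero, zero_mul, Finset.sum_const_zero, add_zero, Polynomial.coe_zero, map_zero]
      · simp only [BB_rr, BB_lr, BB_rl, mul_zero, zero_mul, Finset.sum_const_zero, zero_add]
        rw [Polynomial.coe_mul]
        have h5 : ∑ l, H₂ i l * ((T₁ * A₂ l j : Polynomial L) : L⟦X⟧) = (T₁ : L⟦X⟧) * ∑ l, H₂ i l * (A₂ l j : L⟦X⟧) := by
          rw [Finset.mul_sum]
          exact Finset.sum_congr rfl fun l _ => by rw [Polynomial.coe_mul]; ring
        rw [h5, ← h4]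
        ring
  gfun := fun i j => by
    refine Fin.addCases (fun i => ?_) (fun i => ?_) i <;> refine Fin.addCases (fun j => ?_) (fun j => ?_) j
    · rw [BB_ll]; exact h₁.gfun i j
    · rw [BB_lr]; exact GFn.zero
    · rw [BB_rl]; exact GFn.zero
    · rw [BB_rr]; exact h₂.gfun i j
  inv := by
    obtain ⟨W₁, h3, h4⟩ := h₁.inv
    obtain ⟨W₂, h5, h6⟩ := h₂.inv
    refine ⟨BB W₁ W₂, by rw [BB_mul, h3, h5, BB_one], fun i j => ?_⟩
    refine Fin.addCases (fun i => ?_) (fun i => ?_) i <;> refine Fin.addCases (fun j => ?_) (fun j => ?_) j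
    · rw [BB_ll]; exact h4 i j
    · rw [BB_lr]; exact GFn.zero
    · rw [BB_rl]; exact GFn.zero
    · rw [BB_rr]; exact h6 i j

/-- **Finitely many blocks.** -/
theorem lfam_list (l : List (Σ n : ℕ, Matrix (Fin n) (Fin n) L⟦X⟧)) (h : ∀ x ∈ l, LFam (0 : Matrix (Fin x.1) (Fin x.1) ℤ) x.2) :
    ∃ (n : ℕ) (H : Matrix (Fin n) (Fin n) L⟦X⟧), LFam (0 : Matrix (Fin n) (Fin n) ℤ) H ∧
      ∀ x ∈ l, ∀ a b, ∃ a' b', H a' b' = x.2 a b := by
  induction l with
  | nil =>
    refine ⟨0, 0, ⟨Matrix.ext fun i => i.elim0, fun i => i.elim0, ⟨1, fun i => i.elim0, by simp, fun i => i.elim0⟩, fun i => i.elim0,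
      ⟨0, Matrix.ext fun i => i.elim0, fun i => i.elim0⟩⟩, by simp⟩
  | cons x l ih =>
    obtain ⟨n, H, hH, hl⟩ := ih fun y hy => h y (List.mem_cons_of_mem _ hy)
    refine ⟨x.1 + n, BB x.2 H, lfam_BB (h x List.mem_cons_self) hH, fun y hy a b => ?_⟩
    rcases List.mem_cons.1 hy with rfl | hy
    · exact ⟨_, _, BB_ll _ _ a b⟩
    · obtain ⟨a', b', hab⟩ := hl y hy a b
      exact ⟨_, _, (BB_rr _ _ a' b').trans hab⟩

end sum

end Pool.Agent.NH25.EL
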