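import Pool.Agent.NH25.EL.Ind
import Pool.Agent.W924.LF.Germ

/-!
# Independence of analytic functions
-/

set_option autoImplicit false

open Polynomial Filter Topology

namespace Pool.Agent.NH25.EL

variable {n m : ℕ}

/-- **Independence of elliptic integrals and logarithms near a point.** -/
theorem ger {z₀ : ℂ} {f : Fin n → ℂ[X]} (hsf : ∀ i, Squarefree (f i)) (hdeg : ∀ i, (f i).natDegree = 3)
    (hlead : ∀ i, (f i).leadingCoeff = 4) (hinj : Function.Injective f) (c : Fin m → ℂ) (hc : Function.Injective c)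
    (θ : Fin n → ℂ) (S : Fin n → ℂ → ℂ) (y : (Fin n × Fin 2) ⊕ Fin m → ℂ → ℂ) (hSa : ∀ i, AnalyticAt ℂ (S i) z₀)
    (hya : ∀ v, AnalyticAt ℂ (y v) z₀) (hS : ∀ i, ∀ᶠ z in 𝓝 z₀, S i z * S i z = (f i).eval z)
    (hy0 : ∀ i, ∀ᶠ z in 𝓝 z₀, deriv (y (Sum.inl (i, 0))) z * S i z = 1)
    (hy1 : ∀ i, ∀ᶠ z in 𝓝 z₀, deriv (y (Sum.inl (i, 1))) z * S i z = z + θ i)
    (hz : ∀ j, ∀ᶠ z in 𝓝 z₀, deriv (y (Sum.inr j)) z * (z + c j) = 1)
    (P : MvPolynomial (Option ((Fin n × Fin 2) ⊕ Fin m)) ℂ)
    (hP : ∀ᶠ z in 𝓝 z₀, MvPolynomial.eval (fun o : Option _ => o.elim z fun v => y v z) P = 0) : P = 0 := by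
  classical
  obtain ⟨E, i1, i2, D, T, hconst, hTc, hTadd, hTmul, hTd, hT0, hTe⟩ := Pool.Agent.W924.LF.t_GERM ℂ
  have hE : CharZero E := charZero_of_injective_algebraMap (algebraMap ℂ E).injective
  have hpa : ∀ p : ℂ[X], AnalyticAt ℂ (fun z => p.eval z) z₀ := fun p => by
    have h1 := AnalyticAt.aeval_polynomial (z := z₀) (f := fun z : ℂ => z) (𝕜 := ℂ) analyticAt_id p
    simpa using h1
  -- translates
  have htr : ∀ {g : ℂ → ℂ}, AnalyticAt ℂ g z₀ → AnalyticAt ℂ (fun s => g (z₀ + s)) 0 := by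
    intro g hg
    have h1 : AnalyticAt ℂ (fun s : ℂ => z₀ + s) 0 := analyticAt_const.add analyticAt_id
    exact AnalyticAt.comp_of_eq hg h1 (by simp)
  have hev : ∀ {p : ℂ → Prop}, (∀ᶠ z in 𝓝 z₀, p z) → ∀ᶠ s in 𝓝 (0 : ℂ), p (z₀ + s) := by
    intro p hp
    have h1 : Tendsto (fun s : ℂ => z₀ + s) (𝓝 0) (𝓝 z₀) := by
      have h2 : Continuous fun s : ℂ => z₀ + s := by fun_prop
      have h3 := h2.tendsto 0
      rwa [add_zero] at h3
    exact h1.eventually hp
  have hder : ∀ {g : ℂ → ℂ}, AnalyticAt ℂ g z₀ → D (T fun s => g (z₀ + s)) = T fun s => deriv g (z₀ + s) := by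
    intro g hg
    rw [← hTd _ (htr hg)]
    congr 1
    funext s
    rw [deriv_comp_const_add]
  set τ : E := T fun s => z₀ + s with hτ
  have hid : AnalyticAt ℂ (fun z : ℂ => z) z₀ := analyticAt_id
  have hDτ : D τ = 1 := by
    have h1 := hder hid
    rw [hτ, h1]
    have h2 : (fun s : ℂ => deriv (fun z : ℂ => z) (z₀ + s)) = fun _ => 1 := by
      funext s
      simp
    rw [h2, hTc, map_one]
  have hpoly : ∀ p : ℂ[X], aeval τ p = T fun s => p.eval (z₀ + s) := by
    intro p
    induction p using Polynomial.induction_on' with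
    | add p q hp hq =>
      rw [map_add, hp, hq, ← hTadd]
      · simp only [eval_add]
      · exact htr (g := fun z => p.eval z) (hpa p)
      · exact htr (g := fun z => q.eval z) (hpa q)
    | monomial N a =>
      rw [aeval_monomial]
      have h1 : ∀ N : ℕ, τ ^ N = T fun s => (z₀ + s) ^ N := by
        intro N
        induction N with
        | zero =>
          simp only [pow_zero]
          rw [hTc, map_one]
        | succ N ih =>
          rw [pow_succ, ih, hτ, ← hTmul]
          · congr 1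
          · exact htr (g := fun z => z ^ N) (by fun_prop)
          · exact htr hid
      rw [h1, ← hTc, ← hTmul]
      · congr 1
        funext s
        rw [eval_monomial]
      · exact analyticAt_const
      · exact htr (g := fun z => z ^ N) (by fun_prop)
  have hdat : Dat D τ f fun i => T fun s => S i (z₀ + s) := by
    refine ⟨hDτ, hconst, hsf, hdeg, hlead, hinj, fun i => ?_⟩
    rw [← hTmul _ _ (htr (hSa i)) (htr (hSa i)), hpoly]
    exact hTe _ _ (hev (hS i))
  have hmv : ∀ Q : MvPolynomial (Option ((Fin n × Fin 2) ⊕ Fin m)) ℂ,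
      AnalyticAt ℂ (fun z => MvPolynomial.eval (fun o : Option _ => o.elim z fun v => y v z) Q) z₀ ∧
      MvPolynomial.aeval (fun o : Option _ => o.elim τ fun v => T fun s => y v (z₀ + s)) Q =
        T fun s => MvPolynomial.eval (fun o : Option _ => o.elim (z₀ + s) fun v => y v (z₀ + s)) Q := by
    intro Q
    induction Q using MvPolynomial.induction_on with
    | C a =>
      refine ⟨?_, ?_⟩
      · simp only [MvPolynomial.eval_C]
        exact analyticAt_const
      · simp only [MvPolynomial.eval_C, MvPolynomial.aeval_C]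
        exact (hTc a).symm
    | add p q hp hq =>
      refine ⟨?_, ?_⟩
      · simp only [map_add]
        exact hp.1.add hq.1
      · rw [map_add, hp.2, hq.2, ← hTadd _ _ (htr (g := fun z => MvPolynomial.eval (fun o : Option _ => o.elim z fun v => y v z) p) hp.1)
          (htr (g := fun z => MvPolynomial.eval (fun o : Option _ => o.elim z fun v => y v z) q) hq.1)]
        simp only [map_add]
    | mul_X p v hp =>
      have hv : AnalyticAt ℂ (fun z => (v.elim z fun v => y v z : ℂ)) z₀ := by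
        rcases v with _ | v
        · exact hid
        · exact hya v
      refine ⟨?_, ?_⟩
      · simp only [map_mul, MvPolynomial.eval_X]
        exact hp.1.mul hv
      · rw [map_mul, hp.2, MvPolynomial.aeval_X]
        have h1 : (v.elim τ fun v => T fun s => y v (z₀ + s) : E) = T fun s => (v.elim (z₀ + s) fun v => y v (z₀ + s) : ℂ) := by
          rcases v with _ | v <;> rfl
        rw [h1, ← hTmul _ _ (htr (g := fun z => MvPolynomial.eval (fun o : Option _ => o.elim z fun v => y v z) p) hp.1)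
          (htr (g := fun z => (v.elim z fun v => y v z : ℂ)) hv)]
        simp only [map_mul, MvPolynomial.eval_X]
  have hconst2 : ∀ a : ℂ, ∀ g : ℂ → ℂ, (∀ᶠ s in 𝓝 (0 : ℂ), g s = a) → T g = algebraMap ℂ E a := by
    intro a g hg
    rw [← hTc]
    exact hTe _ _ hg
  refine indep' hdat c hc θ (fun v => T fun s => y v (z₀ + s)) (fun i => ?_) (fun i => ?_) (fun j => ?_) P ?_
  · rw [hder (hya _), ← hTmul _ _ (htr (hya _).deriv) (htr (hSa i)), hconst2 1 _ (hev (hy0 i)), map_one]
  · rw [hder (hya _), ← hTmul _ _ (htr (hya _).deriv) (htr (hSa i)), hpoly]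
    refine hTe _ _ ?_
    filter_upwards [hev (hy1 i)] with s hs
    rw [hs]
    simp
  · have h1 := hTmul (fun s => deriv (y (Sum.inr j)) (z₀ + s)) (fun s => Polynomial.eval (z₀ + s) (X + C (c j) : ℂ[X]))
      (htr (hya (Sum.inr j)).deriv) (htr (g := fun z => Polynomial.eval z (X + C (c j) : ℂ[X])) (hpa _))
    rw [hder (hya _), hpoly, ← h1, hconst2 1, map_one]
    filter_upwards [hev (hz j)] with s hs
    rw [← hs]
    simp
  · rw [(hmv P).2, hconst2 0, map_zero]
    exact hev hP

end Pool.Agent.NH25.EL
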