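import Pool.Agent.NH25.EL.Val
import Pool.Agent.NH25.EL.Ger
import Pool.Agent.NH25.FR.Free

/-!
# The functions of one variable and their independence
-/

set_option autoImplicit false

open Filter Topology

namespace Pool.Agent.NH25.EL

open Pool.Agent.Y921.DB Pool.Agent.NH25.DL

variable {L : Type} [Field L] [NumberField L] [Algebra L ℂ] {n m : ℕ}

/-- the functions of one variable -/
noncomputable def g1 (a : Fin n → Fin 3 → L) (θ : Fin n → L) (c : Fin m → L) (pp : Fin n → ℂ) (z t : ℂ) :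
    (Fin n × Fin 2) ⊕ Fin m → ℂ :=
  Sum.elim (fun v => (![VL (F0 (a v.1)) z / pp v.1, VL (F1 (a v.1) (θ v.1)) z / pp v.1] : Fin 2 → ℂ) v.2)
    (open Classical in fun j => if c j = 0 then -t else VL (lg (c j)) z)

/-- the cubic polynomial -/
noncomputable def cu (a : Fin 3 → L) : Polynomial ℂ :=
  Polynomial.C 4 * ∏ j, (Polynomial.X - Polynomial.C (algebraMap L ℂ (a j)))

omit [NumberField L] in
lemma cu_monic (a : Fin 3 → L) : (∏ j, (Polynomial.X - Polynomial.C (algebraMap L ℂ (a j))) : Polynomial ℂ).Monic :=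
  Polynomial.monic_prod_of_monic _ _ fun j _ => Polynomial.monic_X_sub_C _

omit [NumberField L] in
lemma cu_deg (a : Fin 3 → L) : (cu a).natDegree = 3 := by
  unfold cu
  rw [Polynomial.natDegree_C_mul (by norm_num), Polynomial.natDegree_prod_of_monic _ _ fun j _ => Polynomial.monic_X_sub_C _]
  simp

omit [NumberField L] in
lemma cu_lead (a : Fin 3 → L) : (cu a).leadingCoeff = 4 := by
  unfold cu
  rw [Polynomial.leadingCoeff_mul, Polynomial.leadingCoeff_C, (cu_monic a).leadingCoeff, mul_one]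

omit [NumberField L] in
lemma cu_sf (a : Fin 3 → L) (ha : Function.Injective a) : Squarefree (cu a) := by
  unfold cu
  have h1 : (∏ j, (Polynomial.X - Polynomial.C (algebraMap L ℂ (a j))) : Polynomial ℂ).Separable :=
    Polynomial.separable_prod_X_sub_C_iff.2 fun x y h => ha ((algebraMap L ℂ).injective h)
  have h2 : IsUnit (Polynomial.C (4 : ℂ)) := Polynomial.isUnit_C.2 (isUnit_iff_ne_zero.2 (by norm_num))
  intro x hx
  exact h1.squarefree x ((h2.dvd_mul_left).1 hx)

theorem g1_ind (a : Fin n → Fin 3 → L) (θ : Fin n → L) (c : Fin m → L) (pp : Fin n → ℂ) (ha : ∀ i j, a i j ≠ 0)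
    (hinj : ∀ i, Function.Injective (a i)) (hne : Function.Injective fun i => cu (a i)) (hc : Function.Injective c)
    (hpp : ∀ i, pp i ^ 2 = -4 * ∏ j, algebraMap L ℂ (a i j)) {r : ℝ} (hr : 0 < r)
    (P : MvPolynomial (Option ((Fin n × Fin 2) ⊕ Fin m)) ℂ)
    (hP : ∀ z t : ℂ, ‖z‖ < r → MvPolynomial.eval (fun o => o.elim z (g1 a θ c pp z t)) P = 0) : P = 0 := by
  classical
  have hCa : ∀ i j, algebraMap L ℂ (a i j) ≠ 0 := fun i j => (map_ne_zero_iff _ (algebraMap L ℂ).injective).2 (ha i j)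
  have hpp0 : ∀ i, pp i ≠ 0 := by
    intro i h0
    have h1 := hpp i
    rw [h0, zero_pow two_ne_zero] at h1
    have h2 : (-4 : ℂ) * ∏ j, algebraMap L ℂ (a i j) ≠ 0 :=
      mul_ne_zero (by norm_num) (Finset.prod_ne_zero_iff.2 fun j _ => hCa i j)
    exact h2 h1.symm
  -- the facts near zero
  have E1 : ∀ᶠ z : ℂ in 𝓝 0, ‖z‖ < r := by
    filter_upwards [Metric.ball_mem_nhds (0 : ℂ) hr] with z hz
    simpa using hz
  have E2 : ∀ᶠ z : ℂ in 𝓝 0, ∀ i, AnalyticAt ℂ (VL (wS (a i))) z ∧ AnalyticAt ℂ (VL (F0 (a i))) z ∧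
      AnalyticAt ℂ (VL (F1 (a i) (θ i))) z ∧ VL (wS (a i)) z * VL (wI (a i)) z = 1 ∧
      VL (wI (a i)) z ^ 2 * ∏ j, (1 - z / algebraMap L ℂ (a i j)) = 1 ∧
      HasDerivAt (VL (F0 (a i))) (VL (wI (a i)) z) z ∧
      HasDerivAt (VL (F1 (a i) (θ i))) ((algebraMap L ℂ (θ i) + z) * VL (wI (a i)) z) z := by
    rw [Filter.eventually_all]
    intro i
    filter_upwards [vl_an (GFn_wS (a i)), vl_an (GFn_F0 (a i)), vl_an (GFn_F1 (a i) (θ i)), wS_val (a i),
      wI_val (a i) (ha i), F0_der (a i), F1_der (a i) (θ i)] with z h1 h2 h3 h4 h5 h6 h7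
    exact ⟨h1, h2, h3, h4, h5, h6, h7⟩
  have E3 : ∀ᶠ z : ℂ in 𝓝 0, ∀ j, c j ≠ 0 → AnalyticAt ℂ (VL (lg (c j))) z ∧ algebraMap L ℂ (c j) + z ≠ 0 ∧
      HasDerivAt (VL (lg (c j))) (1 / (algebraMap L ℂ (c j) + z)) z := by
    rw [Filter.eventually_all]
    intro j
    by_cases hj : c j = 0
    · exact Filter.Eventually.of_forall fun z h => absurd hj h
    · have hne : ∀ᶠ z : ℂ in 𝓝 0, algebraMap L ℂ (c j) + z ≠ 0 := by
        have h2 : Continuous fun z : ℂ => algebraMap L ℂ (c j) + z := by fun_prop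
        refine h2.continuousAt.eventually_ne ?_
        rw [add_zero]
        exact (map_ne_zero_iff _ (algebraMap L ℂ).injective).2 hj
      filter_upwards [vl_an (GFn_lg (c j)), hne, lg_der hj] with z h1 h2 h3
      exact fun _ => ⟨h1, h2, h3⟩
  obtain ⟨x, hx, hx0⟩ : ∃ x : ℝ, (∀ᶠ z in 𝓝 (x : ℂ), ‖z‖ < r ∧ (∀ i, AnalyticAt ℂ (VL (wS (a i))) z ∧
      AnalyticAt ℂ (VL (F0 (a i))) z ∧
      AnalyticAt ℂ (VL (F1 (a i) (θ i))) z ∧ VL (wS (a i)) z * VL (wI (a i)) z = 1 ∧
      VL (wI (a i)) z ^ 2 * ∏ j, (1 - z / algebraMap L ℂ (a i j)) = 1 ∧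
      HasDerivAt (VL (F0 (a i))) (VL (wI (a i)) z) z ∧
      HasDerivAt (VL (F1 (a i) (θ i))) ((algebraMap L ℂ (θ i) + z) * VL (wI (a i)) z) z) ∧
      ∀ j, c j ≠ 0 → AnalyticAt ℂ (VL (lg (c j))) z ∧ algebraMap L ℂ (c j) + z ≠ 0 ∧
      HasDerivAt (VL (lg (c j))) (1 / (algebraMap L ℂ (c j) + z)) z) ∧ 0 < x := by
    have h1 := eventually_eventually_nhds.2 (E1.and (E2.and E3))
    have h2 : Tendsto (fun x : ℝ => (x : ℂ)) (𝓝 0) (𝓝 0) := by
      have := Complex.continuous_ofReal.tendsto 0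
      simpa using this
    have h3 : ∀ᶠ x : ℝ in 𝓝[>] 0, _ := (h2.eventually h1).filter_mono nhdsWithin_le_nhds
    exact (h3.and self_mem_nhdsWithin).exists
  have hslit : (x : ℂ) ∈ Complex.slitPlane := by
    rw [Complex.ofReal_mem_slitPlane]
    exact hx0
  have hslit' : ∀ᶠ z in 𝓝 (x : ℂ), z ∈ Complex.slitPlane := Complex.isOpen_slitPlane.mem_nhds hslit
  have hself := hx.self_of_nhds
  refine ger (z₀ := (x : ℂ)) (f := fun i => cu (a i)) (fun i => cu_sf _ (hinj i)) (fun i => cu_deg _) (fun i => cu_lead _) hne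
    (fun j => algebraMap L ℂ (c j)) (fun i j h => hc ((algebraMap L ℂ).injective h)) (fun i => algebraMap L ℂ (θ i))
    (fun i z => pp i * VL (wS (a i)) z) (fun v z => g1 a θ c pp z (-Complex.log z) v) (fun i => ?_) (fun v => ?_)
    (fun i => ?_) (fun i => ?_) (fun i => ?_) (fun j => ?_) P ?_
  · exact analyticAt_const.mul (hself.2.1 i).1
  · rcases v with ⟨i, j⟩ | j
    · obtain ⟨-, h2, h3, -⟩ := hself.2.1 i
      fin_cases j
      · exact h2.div analyticAt_const (hpp0 i)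
      · exact h3.div analyticAt_const (hpp0 i)
    · by_cases hj : c j = 0
      · have h1 : (fun z => g1 a θ c pp z (-Complex.log z) (Sum.inr j)) = Complex.log := by
          funext z
          simp [g1, hj]
        rw [h1]
        exact analyticAt_clog hslit
      · have h1 : (fun z => g1 a θ c pp z (-Complex.log z) (Sum.inr j)) = VL (lg (c j)) := by
          funext z
          simp [g1, hj]
        rw [h1]
        exact (hself.2.2 j hj).1
  · filter_upwards [hx] with z hz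
    obtain ⟨-, -, -, h1, h2, -, -⟩ := hz.2.1 i
    have h3 : VL (wS (a i)) z ^ 2 = ∏ j, (1 - z / algebraMap L ℂ (a i j)) := by
      calc VL (wS (a i)) z ^ 2 = VL (wS (a i)) z ^ 2 * (VL (wI (a i)) z ^ 2 * ∏ j, (1 - z / algebraMap L ℂ (a i j))) := by
            rw [h2, mul_one]
        _ = (VL (wS (a i)) z * VL (wI (a i)) z) ^ 2 * ∏ j, (1 - z / algebraMap L ℂ (a i j)) := by ring
        _ = _ := by rw [h1]; ring
    have h4 : pp i * VL (wS (a i)) z * (pp i * VL (wS (a i)) z) = pp i ^ 2 * VL (wS (a i)) z ^ 2 := by ring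
    rw [h4, h3, hpp]
    unfold cu
    rw [Polynomial.eval_mul, Polynomial.eval_C, Polynomial.eval_prod, Fin.prod_univ_three, Fin.prod_univ_three,
      Fin.prod_univ_three]
    simp only [Polynomial.eval_sub, Polynomial.eval_X, Polynomial.eval_C]
    have h5 := hCa i 0
    have h6 := hCa i 1
    have h7 := hCa i 2
    field_simp
    ring
  · filter_upwards [hx] with z hz
    obtain ⟨-, -, -, h1, -, h2, -⟩ := hz.2.1 i
    have h3 : HasDerivAt (fun z => g1 a θ c pp z (-Complex.log z) (Sum.inl (i, 0))) (VL (wI (a i)) z / pp i) z :=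
      h2.div_const (pp i)
    rw [h3.deriv]
    have := hpp0 i
    field_simp
    linear_combination h1
  · filter_upwards [hx] with z hz
    obtain ⟨-, -, -, h1, -, -, h2⟩ := hz.2.1 i
    have h3 : HasDerivAt (fun z => g1 a θ c pp z (-Complex.log z) (Sum.inl (i, 1)))
        ((algebraMap L ℂ (θ i) + z) * VL (wI (a i)) z / pp i) z := h2.div_const (pp i)
    rw [h3.deriv]
    have := hpp0 i
    field_simp
    linear_combination (algebraMap L ℂ (θ i) + z) * h1
  · by_cases hj : c j = 0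
    · have h1 : (fun z => g1 a θ c pp z (-Complex.log z) (Sum.inr j)) = Complex.log := by
        funext z
        simp [g1, hj]
      filter_upwards [hslit'] with z hz
      rw [h1, (Complex.hasDerivAt_log hz).deriv, hj, map_zero, add_zero, inv_mul_cancel₀ (Complex.slitPlane_ne_zero hz)]
    · have h1 : (fun z => g1 a θ c pp z (-Complex.log z) (Sum.inr j)) = VL (lg (c j)) := by
        funext z
        simp [g1, hj]
      filter_upwards [hx] with z hz
      obtain ⟨-, h2, h3⟩ := hz.2.2 j hj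
      rw [h1, h3.deriv, add_comm z]
      exact one_div_mul_cancel h2
  · filter_upwards [hx] with z hz
    exact hP z _ hz.1

/-- the functions of `k` variables -/
noncomputable def fE {k : ℕ} (a : Fin k → Fin n → Fin 3 → L) (θ : Fin k → Fin n → L) (c : Fin k → Fin m → L)
    (pp : Fin k → Fin n → ℂ) (z t : Fin k → ℂ) (v : Fin k × ((Fin n × Fin 2) ⊕ Fin m)) : ℂ :=
  g1 (a v.1) (θ v.1) (c v.1) (pp v.1) (z v.1) (t v.1) v.2

theorem fE_ind {k : ℕ} (a : Fin k → Fin n → Fin 3 → L) (θ : Fin k → Fin n → L) (c : Fin k → Fin m → L)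
    (pp : Fin k → Fin n → ℂ) (ha : ∀ l i j, a l i j ≠ 0)
    (hinj : ∀ l i, Function.Injective (a l i)) (hne : ∀ l, Function.Injective fun i => cu (a l i))
    (hc : ∀ l, Function.Injective (c l))
    (hpp : ∀ l i, pp l i ^ 2 = -4 * ∏ j, algebraMap L ℂ (a l i j)) {r : ℝ} (hr : 0 < r) :
    Pool.Agent.NH25.FR.Ind (fE a θ c pp) r :=
  Pool.Agent.NH25.FR.ind_of (fun l z t => g1 (a l) (θ l) (c l) (pp l) z t) fun l P hP =>
    g1_ind (a l) (θ l) (c l) (pp l) (ha l) (hinj l) (hne l) (hc l) (hpp l) hr P fun z t hz => hP z t hz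

end Pool.Agent.NH25.EL
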