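import Pool.Agent.NH25.EL.Iso
import Pool.Agent.NH25.EL.Poly2
import Pool.Agent.W253.LF.Ost

/-!
# Independence of elliptic integrals of several curves and logarithms
-/

set_option autoImplicit false

open Polynomial

namespace Pool.Agent.NH25.EL

variable {E : Type} [Field E] [Algebra ℂ E] {D : Derivation ℂ E E} {τ : E} {n m : ℕ} {f : Fin n → ℂ[X]} {S : Fin n → E}

/-- the data -/
structure Dat (D : Derivation ℂ E E) (τ : E) (f : Fin n → ℂ[X]) (S : Fin n → E) : Prop where
  Dτ : D τ = 1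
  const : ∀ x : E, D x = 0 → ∃ c : ℂ, algebraMap ℂ E c = x
  sf : ∀ i, Squarefree (f i)
  deg : ∀ i, (f i).natDegree = 3
  lead : ∀ i, (f i).leadingCoeff = 4
  inj : Function.Injective f
  sq : ∀ i, S i * S i = aeval τ (f i)

theorem D_aeval (h : D τ = 1) (P : ℂ[X]) : D (aeval τ P) = aeval τ (derivative P) := by
  induction P using Polynomial.induction_on' with
  | add p q hp hq => rw [map_add, map_add, hp, hq, derivative_add, map_add]
  | monomial n a =>
    rw [aeval_monomial, derivative_monomial, aeval_monomial, Derivation.leibniz, Derivation.map_algebraMap,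
      Derivation.leibniz_pow, h]
    simp
    ring

/-- the field `ℂ(τ)` -/
noncomputable abbrev kk (τ : E) : IntermediateField ℂ E := IntermediateField.adjoin ℂ {τ}

lemma aeval_mem (p : ℂ[X]) : aeval τ p ∈ kk τ := by
  rw [IntermediateField.mem_adjoin_simple_iff]
  exact ⟨p, 1, by simp⟩

theorem Dat.tr (h : Dat D τ f S) (p : ℂ[X]) (hp : aeval τ p = 0) : p = 0 := by
  by_contra h0
  have h1 : IsAlgebraic ℂ τ := ⟨p, h0, hp⟩
  have h2 : τ ∈ (algebraMap ℂ E).range := by
    exact minpoly.mem_range_of_degree_eq_one ℂ τ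
      (IsAlgClosed.degree_eq_one_of_irreducible ℂ (minpoly.irreducible h1.isIntegral))
  obtain ⟨c, hc⟩ := h2
  have h3 := h.Dτ
  rw [← hc, Derivation.map_algebraMap] at h3
  exact zero_ne_one h3

theorem mem_kk (h : Dat D τ f S) {x : E} : x ∈ kk τ ↔ ∃ A Q : ℂ[X], Q ≠ 0 ∧ x * aeval τ Q = aeval τ A := by
  rw [IntermediateField.mem_adjoin_simple_iff]
  constructor
  · rintro ⟨r, s, hx⟩
    by_cases hs : s = 0
    · refine ⟨0, 1, one_ne_zero, ?_⟩
      rw [hx, hs]
      simp
    · refine ⟨r, s, hs, ?_⟩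
      rw [hx, div_mul_cancel₀]
      intro h0
      exact hs (h.tr s h0)
  · rintro ⟨A, Q, hQ, hx⟩
    refine ⟨A, Q, ?_⟩
    rw [eq_div_iff (fun h0 => hQ (h.tr Q h0))]
    exact hx

theorem D_kk (h : Dat D τ f S) {x : E} (hx : x ∈ kk τ) : D x ∈ kk τ := by
  obtain ⟨A, Q, hQ, hx⟩ := (mem_kk h).1 hx
  have h1 := congrArg D hx
  rw [Derivation.leibniz, D_aeval h.Dτ, D_aeval h.Dτ, smul_eq_mul, smul_eq_mul] at h1
  refine (mem_kk h).2 ⟨derivative A * Q - A * derivative Q, Q * Q, mul_ne_zero hQ hQ, ?_⟩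
  rw [map_mul, map_sub, map_mul, map_mul]
  linear_combination (aeval τ Q) * h1 - (aeval τ (derivative Q)) * hx

theorem Dat.f0 (h : Dat D τ f S) (i : Fin n) : aeval τ (f i) ≠ 0 := fun h0 => (h.sf i).ne_zero (h.tr _ h0)

theorem Dat.S0 (h : Dat D τ f S) (i : Fin n) : S i ≠ 0 := by
  intro h0
  apply h.f0 i
  rw [← h.sq i, h0, mul_zero]

theorem DS (h : Dat D τ f S) (i : Fin n) : 2 * aeval τ (f i) * D (S i) = aeval τ (derivative (f i)) * S i := by
  have h1 : D (S i * S i) = aeval τ (derivative (f i)) := by rw [h.sq, D_aeval h.Dτ]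
  rw [Derivation.leibniz, smul_eq_mul] at h1
  rw [← h1, ← h.sq]
  ring

theorem Dat.ei [CharZero E] (h : Dat D τ f S) (i : Fin n) : Ei D (kk τ) (S i) := by
  refine ⟨h.S0 i, aeval τ (derivative (f i)) / (2 * aeval τ (f i)), ?_, ?_⟩
  · refine div_mem (aeval_mem _) (mul_mem ?_ (aeval_mem _))
    exact ofNat_mem (kk τ) 2
  · have h1 := DS h i
    have h2 := h.f0 i
    field_simp
    linear_combination h1

/-- the family -/
def fam (S : Fin n → E) (o : Option (Fin n)) : E := o.elim 1 S

theorem Dat.fam_ei [CharZero E] (h : Dat D τ f S) (o : Option (Fin n)) : Ei D (kk τ) (fam S o) := by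
  rcases o with _ | i
  · exact Ei.one
  · exact h.ei i

theorem Dat.not_mem (h : Dat D τ f S) (i : Fin n) : S i ∉ kk τ := by
  intro hx
  obtain ⟨A, Q, hQ, hx⟩ := (mem_kk h).1 hx
  have h1 : A * A = Q * Q * f i := by
    rw [← sub_eq_zero]
    apply h.tr
    simp only [map_sub, map_mul, ← h.sq, ← hx]
    ring
  exact hQ (nosq (h.sf i) (by rw [h.deg]; omega) A Q h1).2

theorem Dat.ne [CharZero E] (h : Dat D τ f S) (o o' : Option (Fin n)) (hne : o ≠ o') : fam S o / fam S o' ∉ kk τ := by
  rcases o with _ | i <;> rcases o' with _ | j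
  · exact absurd rfl hne
  · intro h1
    have h2 := (kk τ).inv_mem h1
    rw [inv_div] at h2
    have h3 : S j ∈ kk τ := by simpa [fam] using h2
    exact h.not_mem j h3
  · intro h2
    have h3 : S i ∈ kk τ := by simpa [fam] using h2
    exact h.not_mem i h3
  · intro h1
    obtain ⟨A, Q, hQ, hx⟩ := (mem_kk h).1 h1
    have hij : f j ≠ f i := fun h0 => hne (congrArg some (h.inj h0).symm)
    have h2 : A * A * f j = Q * Q * f i := by
      rw [← sub_eq_zero]
      apply h.tr
      have h3 : fam S (some i) = S i := rfl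
      have h4 : fam S (some j) = S j := rfl
      rw [h3, h4] at hx
      have h5 := h.S0 j
      simp only [map_sub, map_mul, ← h.sq, ← hx]
      field_simp
      ring
    exact hQ (ratio (h.sf i) (h.sf j) (by rw [h.lead, h.lead]) hij.symm A Q h2).2

/-- the field generated by the square roots -/
noncomputable def FF (τ : E) (S : Fin n → E) : IntermediateField ℂ E :=
  (IntermediateField.adjoin (kk τ) (Set.range S)).restrictScalars ℂ

theorem kk_le : kk τ ≤ FF τ S := fun x hx =>
  (IntermediateField.adjoin (kk τ) (Set.range S)).algebraMap_mem (⟨x, hx⟩ : kk τ)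

theorem S_mem (i : Fin n) : S i ∈ FF τ S := IntermediateField.subset_adjoin (kk τ) (Set.range S) ⟨i, rfl⟩

theorem rep_FF [CharZero E] (h : Dat D τ f S) {x : E} (hx : x ∈ FF τ S) : ∃ (N : ℕ) (r g : Fin N → E), (∀ j, r j ∈ kk τ) ∧
    (∀ j, Ei D (kk τ) (g j)) ∧ (∀ j, g j ∈ FF τ S) ∧ ∑ j, r j * g j = x := by
  have hx1 : x ∈ IntermediateField.adjoin (kk τ) (Set.range S) := hx
  have halg : ∀ y ∈ Set.range S, IsAlgebraic (kk τ) y := by
    rintro _ ⟨i, rfl⟩
    refine ⟨Polynomial.X ^ 2 - Polynomial.C ⟨aeval τ (f i), aeval_mem _⟩, (Polynomial.monic_X_pow_sub_C _ two_ne_zero).ne_zero, ?_⟩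
    rw [map_sub, map_pow, aeval_X, aeval_C]
    show S i ^ 2 - aeval τ (f i) = 0
    rw [sq, h.sq, sub_self]
  have hx2 : x ∈ Algebra.adjoin (kk τ) (Set.range S) := by
    rw [← IntermediateField.adjoin_toSubalgebra_of_isAlgebraic halg]
    exact hx1
  have hx3 : x ∈ Submodule.span (kk τ) ((Submonoid.closure (Set.range S) : Submonoid E) : Set E) := by
    rw [← Algebra.adjoin_eq_span]
    exact hx2
  obtain ⟨N, r, g, hrg⟩ := (Submodule.mem_span_set' (R := kk τ)).1 hx3
  refine ⟨N, fun j => (r j : E), fun j => (g j : E), fun j => (r j).2, fun j => ?_, fun j => ?_, ?_⟩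
  · have h1 := (g j).2
    refine Submonoid.closure_induction (motive := fun y _ => Ei D (kk τ) y) ?_ ?_ ?_ h1
    · rintro _ ⟨i, rfl⟩
      exact h.ei i
    · exact Ei.one
    · intro a b _ _ ha hb
      exact ha.mul hb
  · have h1 := (g j).2
    refine Submonoid.closure_induction (motive := fun y _ => y ∈ FF τ S) ?_ ?_ ?_ h1
    · rintro _ ⟨i, rfl⟩
      exact S_mem i
    · exact (FF τ S).one_mem
    · intro a b _ _ ha hb
      exact (FF τ S).mul_mem ha hb
  · rw [← hrg]
    rfl

theorem D_FF [CharZero E] (h : Dat D τ f S) {x : E} (hx : x ∈ FF τ S) : D x ∈ FF τ S := by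
  obtain ⟨N, r, g, hr, hg, hgF, rfl⟩ := rep_FF h hx
  rw [map_sum]
  refine sum_mem fun j _ => ?_
  obtain ⟨-, u, hu, h2⟩ := hg j
  rw [Derivation.leibniz, smul_eq_mul, smul_eq_mul, h2]
  exact add_mem (mul_mem (kk_le (hr j)) (mul_mem (kk_le hu) (hgF j))) (mul_mem (hgF j) (kk_le (D_kk h (hr j))))

/-- the derivation of the field -/
noncomputable def DF [CharZero E] (h : Dat D τ f S) : Derivation ℂ (FF τ S) (FF τ S) :=
  Derivation.mk' { toFun := fun x => ⟨D x, D_FF h x.2⟩
                   map_add' := fun x y => Subtype.ext (by simp)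
                   map_smul' := fun c x => Subtype.ext (by simp) }
    (fun a b => Subtype.ext (by simp [Derivation.leibniz]))

/-- **Independence.** -/
theorem indep [CharZero E] (h : Dat D τ f S) (c : Fin m → ℂ) (hc : Function.Injective c) (θ : Fin n → ℂ)
    (y : (Fin n × Fin 2) ⊕ Fin m → E) (hy0 : ∀ i, D (y (Sum.inl (i, 0))) * S i = 1)
    (hy1 : ∀ i, D (y (Sum.inl (i, 1))) * S i = aeval τ (X + C (θ i)))
    (hz : ∀ j, D (y (Sum.inr j)) * aeval τ (X + C (c j)) = 1) : AlgebraicIndependent (FF τ S) y := by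
  classical
  have hX : ∀ a : ℂ, aeval τ (X + C a) ≠ 0 := by
    intro a h0
    have h1 := h.tr _ h0
    have h2 := congrArg (fun p => coeff p 1) h1
    simp at h2
  -- the derivatives
  have hD0 : ∀ i, D (y (Sum.inl (i, 0))) = 1 / aeval τ (f i) * S i := by
    intro i
    have h1 := hy0 i
    have h2 := h.sq i
    have h3 := h.f0 i
    field_simp
    linear_combination (S i) * h1 - D (y (Sum.inl (i, 0))) * h2
  have hD1 : ∀ i, D (y (Sum.inl (i, 1))) = aeval τ (X + C (θ i)) / aeval τ (f i) * S i := by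
    intro i
    have h1 := hy1 i
    have h2 := h.sq i
    have h3 := h.f0 i
    field_simp
    linear_combination (S i) * h1 - D (y (Sum.inl (i, 1))) * h2
  have hDz : ∀ j, D (y (Sum.inr j)) = 1 / aeval τ (X + C (c j)) := fun j => by
    rw [eq_div_iff (hX _)]
    exact hz j
  have hw : ∀ i, D (y i) ∈ FF τ S := by
    rintro (⟨i, j⟩ | j)
    · fin_cases j
      · show D (y (Sum.inl (i, 0))) ∈ _
        rw [hD0]
        exact mul_mem (div_mem (one_mem _) (kk_le (aeval_mem _))) (S_mem i)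
      · show D (y (Sum.inl (i, 1))) ∈ _
        rw [hD1]
        exact mul_mem (div_mem (kk_le (aeval_mem _)) (kk_le (aeval_mem _))) (S_mem i)
    · rw [hDz]
      exact div_mem (one_mem _) (kk_le (aeval_mem _))
  refine Pool.Agent.W253.LF.t_OST ℂ (FF τ S) E (DF h) D (fun x => rfl) h.const _ y (fun i => ⟨D (y i), hw i⟩)
    (fun i => rfl) ?_
  intro γ φ hφ
  obtain ⟨N, r, g, hr, hg, -, hsum⟩ := rep_FF h φ.2
  -- the coefficients
  set q : Option (Fin n) → E := fun o => o.elim (∑ j, algebraMap ℂ E (γ (Sum.inr j)) * (1 / aeval τ (X + C (c j))))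
    fun i => (algebraMap ℂ E (γ (Sum.inl (i, 0))) + algebraMap ℂ E (γ (Sum.inl (i, 1))) * aeval τ (X + C (θ i))) /
      aeval τ (f i) with hq
  have hqk : ∀ o, q o ∈ kk τ := by
    rintro (_ | i)
    · exact sum_mem fun j _ => mul_mem ((kk τ).algebraMap_mem _) (div_mem (one_mem _) (aeval_mem _))
    · exact div_mem (add_mem ((kk τ).algebraMap_mem _) (mul_mem ((kk τ).algebraMap_mem _) (aeval_mem _))) (aeval_mem _)
  have hDsum : D (∑ j, r j * g j) = ∑ o, q o * fam S o := by
    rw [hsum]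
    have h1 : (φ : E) = ∑ i, algebraMap ℂ E (γ i) * y i := hφ.symm
    rw [h1, map_sum, Fintype.sum_option, Fintype.sum_sum_type, Fintype.sum_prod_type]
    have h2 : ∀ i, D (algebraMap ℂ E (γ i) * y i) = algebraMap ℂ E (γ i) * D (y i) := by
      intro i
      rw [Derivation.leibniz, Derivation.map_algebraMap, smul_zero, add_zero, smul_eq_mul]
    simp only [h2, Fin.sum_univ_two, hD0, hD1, hDz]
    rw [add_comm]
    congr 1
    · show _ = q none * 1
      rw [mul_one]
      rfl
    · refine Finset.sum_congr rfl fun i _ => ?_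
      show _ = (algebraMap ℂ E (γ (Sum.inl (i, 0))) + algebraMap ℂ E (γ (Sum.inl (i, 1))) * aeval τ (X + C (θ i))) /
        aeval τ (f i) * S i
      ring
  have hcomp := coeffs h.const (fun x hx => D_kk h hx) h.fam_ei h.ne q hqk g hg r hr hDsum
  -- the elliptic part
  have hell : ∀ i, γ (Sum.inl (i, 0)) = 0 ∧ γ (Sum.inl (i, 1)) = 0 := by
    intro i
    obtain ⟨ρ, hρ, h1⟩ := hcomp (some i)
    obtain ⟨A, Q, hQ, hx⟩ := (mem_kk h).1 hρ
    set W : ℂ[X] := C (γ (Sum.inl (i, 0))) + C (γ (Sum.inl (i, 1))) * (X + C (θ i)) with hW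
    have h2 : D (ρ * S i) * aeval τ (f i) = aeval τ W * S i := by
      have h3 : D (ρ * S i) = (algebraMap ℂ E (γ (Sum.inl (i, 0))) + algebraMap ℂ E (γ (Sum.inl (i, 1))) *
        aeval τ (X + C (θ i))) / aeval τ (f i) * S i := h1
      have h4 : aeval τ W = algebraMap ℂ E (γ (Sum.inl (i, 0))) + algebraMap ℂ E (γ (Sum.inl (i, 1))) *
          aeval τ (X + C (θ i)) := by
        rw [hW, map_add, map_mul, aeval_C, aeval_C]
      rw [h3, h4]
      have := h.f0 i
      field_simp
    have h3 : 2 * f i * (derivative A * Q - A * derivative Q) + A * derivative (f i) * Q = 2 * Q * Q * W := by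
      rw [← sub_eq_zero]
      apply h.tr
      have hQ0 : aeval τ Q ≠ 0 := fun h0 => hQ (h.tr Q h0)
      have hDx := congrArg D hx
      rw [Derivation.leibniz, D_aeval h.Dτ, D_aeval h.Dτ, smul_eq_mul, smul_eq_mul] at hDx
      rw [Derivation.leibniz, smul_eq_mul, smul_eq_mul] at h2
      have hS := DS h i
      have hS0 := h.S0 i
      have h4 : (2 * aeval τ (f i) * (aeval τ (derivative A) * aeval τ Q - aeval τ A * aeval τ (derivative Q)) +
          aeval τ A * aeval τ (derivative (f i)) * aeval τ Q - 2 * aeval τ Q * aeval τ Q * aeval τ W) * S i = 0 := by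
        rw [← hx, ← hDx]
        linear_combination (2 * aeval τ Q * aeval τ Q) * h2 - (ρ * aeval τ Q * aeval τ Q) * hS
      have h5 := (mul_eq_zero.1 h4).resolve_right hS0
      simp only [map_sub, map_add, map_mul, map_ofNat]
      exact h5
    have h4 := key (h.sf i) A Q W hQ (by
      rw [h.deg]
      have h5 : W.natDegree ≤ 1 := by
        rw [hW]
        compute_degree
      omega) h3
    have h5 := congrArg (fun p => coeff p 1) h4
    have h6 := congrArg (fun p => coeff p 0) h4
    simp [hW] at h5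
    simp [hW, h5] at h6
    exact ⟨h6, h5⟩
  -- the logarithms
  have hlog : ∀ j, γ (Sum.inr j) = 0 := by
    obtain ⟨ρ, hρ, h1⟩ := hcomp none
    obtain ⟨A, Q, hQ, hx⟩ := (mem_kk h).1 hρ
    have h2 : D ρ = ∑ j, algebraMap ℂ E (γ (Sum.inr j)) * (1 / aeval τ (X + C (c j))) := by
      have h3 : D (ρ * 1) = (∑ j, algebraMap ℂ E (γ (Sum.inr j)) * (1 / aeval τ (X + C (c j)))) * 1 := h1
      rwa [mul_one, mul_one] at h3
    have h3 : (derivative A * Q - A * derivative Q) * ∏ j, (X + C (c j)) =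
        Q * Q * ∑ j, C (γ (Sum.inr j)) * ∏ j' ∈ Finset.univ.erase j, (X + C (c j')) := by
      rw [← sub_eq_zero]
      apply h.tr
      have hQ0 : aeval τ Q ≠ 0 := fun h0 => hQ (h.tr Q h0)
      have hDx := congrArg D hx
      rw [Derivation.leibniz, D_aeval h.Dτ, D_aeval h.Dτ, smul_eq_mul, smul_eq_mul] at hDx
      have h4 : D ρ * (aeval τ (∏ j, (X + C (c j)))) = ∑ j, algebraMap ℂ E (γ (Sum.inr j)) *
          aeval τ (∏ j' ∈ Finset.univ.erase j, (X + C (c j'))) := by
        rw [h2, Finset.sum_mul]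
        refine Finset.sum_congr rfl fun j _ => ?_
        rw [← Finset.mul_prod_erase _ _ (Finset.mem_univ j), map_mul]
        have := hX (c j)
        field_simp
      rw [map_sub, map_mul, map_mul, map_mul, map_sub, map_mul, map_mul, map_sum]
      have h5 : ∑ j, aeval τ (C (γ (Sum.inr j)) * ∏ j' ∈ Finset.univ.erase j, (X + C (c j'))) =
          ∑ j, algebraMap ℂ E (γ (Sum.inr j)) * aeval τ (∏ j' ∈ Finset.univ.erase j, (X + C (c j'))) :=
        Finset.sum_congr rfl fun j _ => by rw [map_mul, aeval_C]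
      rw [h5, ← h4, ← hx, ← hDx]
      ring
    have h4 := simple c (fun j => γ (Sum.inr j)) hc A Q hQ h3
    exact fun j => congrFun h4 j
  funext v
  rcases v with ⟨i, j⟩ | j
  · fin_cases j
    · exact (hell i).1
    · exact (hell i).2
  · exact hlog j

/-- **Independence over the polynomials.** -/
theorem indep' [CharZero E] (h : Dat D τ f S) (c : Fin m → ℂ) (hc : Function.Injective c) (θ : Fin n → ℂ)
    (y : (Fin n × Fin 2) ⊕ Fin m → E) (hy0 : ∀ i, D (y (Sum.inl (i, 0))) * S i = 1)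
    (hy1 : ∀ i, D (y (Sum.inl (i, 1))) * S i = aeval τ (X + C (θ i)))
    (hz : ∀ j, D (y (Sum.inr j)) * aeval τ (X + C (c j)) = 1)
    (P : MvPolynomial (Option ((Fin n × Fin 2) ⊕ Fin m)) ℂ) (hP : MvPolynomial.aeval (fun o : Option _ => o.elim τ y) P = 0) :
    P = 0 := by
  classical
  have hind := indep h c hc θ y hy0 hy1 hz
  set φ : ℂ[X] →ₐ[ℂ] FF τ S := Polynomial.aeval ⟨τ, kk_le (IntermediateField.mem_adjoin_simple_self ℂ τ)⟩ with hφ
  have hφv : ∀ p : ℂ[X], ((φ p : FF τ S) : E) = aeval τ p := by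
    intro p
    have h1 := Polynomial.aeval_algHom_apply (FF τ S).val (⟨τ, kk_le (IntermediateField.mem_adjoin_simple_self ℂ τ)⟩ : FF τ S) p
    exact h1.symm
  have hφi : Function.Injective φ := by
    rw [injective_iff_map_eq_zero]
    intro p hp
    apply h.tr
    rw [← hφv, hp]
    rfl
  set R := MvPolynomial.optionEquivRight ℂ ((Fin n × Fin 2) ⊕ Fin m) P with hR
  have h1 : MvPolynomial.aeval y (MvPolynomial.map φ.toRingHom R) = MvPolynomial.aeval (fun o : Option _ => o.elim τ y) P := by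
    rw [MvPolynomial.aeval_def, MvPolynomial.eval₂_map]
    have h2 : (MvPolynomial.eval₂Hom ((algebraMap (FF τ S) E).comp φ.toRingHom) y).comp
        (MvPolynomial.optionEquivRight ℂ ((Fin n × Fin 2) ⊕ Fin m)).toRingEquiv.toRingHom =
        (MvPolynomial.aeval (fun o : Option ((Fin n × Fin 2) ⊕ Fin m) => o.elim τ y)).toRingHom := by
      refine MvPolynomial.ringHom_ext (fun a => ?_) fun o => ?_
      · simp [MvPolynomial.optionEquivRight_C]
        exact hφv (C a) |>.trans (aeval_C _ _)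
      · rcases o with _ | o
        · simp [MvPolynomial.optionEquivRight_X_none]
          exact (hφv X).trans (aeval_X _)
        · simp [MvPolynomial.optionEquivRight_X_some]
    exact congrFun (congrArg DFunLike.coe h2) P
  rw [hP] at h1
  have h2 : MvPolynomial.map φ.toRingHom R = 0 := by
    have h3 := algebraicIndependent_iff.1 hind _ h1
    exact h3
  have h3 : R = 0 := by
    apply MvPolynomial.map_injective φ.toRingHom hφi
    rw [h2, map_zero]
  have h4 : (MvPolynomial.optionEquivRight ℂ ((Fin n × Fin 2) ⊕ Fin m)) P = 0 := h3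
  rwa [EmbeddingLike.map_eq_zero_iff] at h4

end Pool.Agent.NH25.EL
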