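import Mathlib

/-!
# Elements of a differential field with logarithmic derivatives in a subfield
-/

set_option autoImplicit false

namespace Pool.Agent.NH25.EL

variable {E : Type} [Field E] [Algebra ℂ E] {D : Derivation ℂ E E} {k : IntermediateField ℂ E}

/-- elements with logarithmic derivative in `k` -/
def Ei (D : Derivation ℂ E E) (k : IntermediateField ℂ E) (g : E) : Prop := g ≠ 0 ∧ ∃ u ∈ k, D g = u * g

lemma Ei.one : Ei D k 1 := ⟨one_ne_zero, 0, k.zero_mem, by simp⟩

lemma Ei.mul {g h : E} (hg : Ei D k g) (hh : Ei D k h) : Ei D k (g * h) := by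
  obtain ⟨h1, u, hu, h2⟩ := hg
  obtain ⟨h3, v, hv, h4⟩ := hh
  refine ⟨mul_ne_zero h1 h3, u + v, k.add_mem hu hv, ?_⟩
  rw [Derivation.leibniz, smul_eq_mul, smul_eq_mul, h2, h4]
  ring

/-- **Linear independence of pairwise inequivalent elements.** -/
theorem lin_ind (hconst : ∀ x : E, D x = 0 → ∃ c : ℂ, algebraMap ℂ E c = x) (hk : ∀ x ∈ k, D x ∈ k) {ι : Type} [Fintype ι]
    {s : ι → E} (hs : ∀ i, Ei D k (s i)) (hne : ∀ i j, i ≠ j → s i / s j ∉ k) (c : ι → E) (hc : ∀ i, c i ∈ k)
    (h : ∑ i, c i * s i = 0) : c = 0 := by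
  classical
  suffices H : ∀ (n : ℕ) (c : ι → E), (∀ i, c i ∈ k) → (Finset.univ.filter fun i => c i ≠ 0).card ≤ n →
      ∑ i, c i * s i = 0 → c = 0 from H _ c hc le_rfl h
  intro n
  induction n with
  | zero =>
    intro c _ hn _
    rw [Nat.le_zero, Finset.card_eq_zero, Finset.filter_eq_empty_iff] at hn
    funext i
    by_contra h0
    exact hn (Finset.mem_univ i) h0
  | succ n ih =>
    intro c hc hn h
    by_contra hne0
    obtain ⟨i₀, hi₀⟩ : ∃ i, c i ≠ 0 := by
      by_contra hcon
      push Not at hcon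
      exact hne0 (funext hcon)
    choose hs0 u hu hDs using hs
    set c' : ι → E := fun i => c i / c i₀ with hc'
    have hc'k : ∀ i, c' i ∈ k := fun i => k.div_mem (hc i) (hc i₀)
    have h1 : ∑ i, c' i * s i = 0 := by
      have h2 : ∑ i, c' i * s i = (c i₀)⁻¹ * ∑ i, c i * s i := by
        rw [Finset.mul_sum]
        exact Finset.sum_congr rfl fun i _ => by simp only [hc']; ring
      rw [h2, h, mul_zero]
    have h2 : ∑ i, (D (c' i) + c' i * (u i - u i₀)) * s i = 0 := by
      have h3 := congrArg D h1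
      rw [map_sum, map_zero] at h3
      have h4 : ∑ i, (D (c' i) + c' i * (u i - u i₀)) * s i = ∑ i, D (c' i * s i) - u i₀ * ∑ i, c' i * s i := by
        rw [Finset.mul_sum, ← Finset.sum_sub_distrib]
        refine Finset.sum_congr rfl fun i _ => ?_
        rw [Derivation.leibniz, smul_eq_mul, smul_eq_mul, hDs]
        ring
      rw [h4, h3, h1, mul_zero, sub_zero]
    have h3 : (fun i => D (c' i) + c' i * (u i - u i₀)) = 0 := by
      refine ih _ (fun i => k.add_mem (hk _ (hc'k i)) (k.mul_mem (hc'k i) (k.sub_mem (hu i) (hu i₀)))) ?_ h2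
      have hsub : (Finset.univ.filter fun i => D (c' i) + c' i * (u i - u i₀) ≠ 0) ⊆
          (Finset.univ.filter fun i => c i ≠ 0).erase i₀ := by
        intro i hi
        rw [Finset.mem_filter] at hi
        rw [Finset.mem_erase, Finset.mem_filter]
        refine ⟨?_, Finset.mem_univ i, ?_⟩
        · rintro rfl
          apply hi.2
          have : c' i = 1 := div_self hi₀
          rw [this, Derivation.map_one_eq_zero, sub_self, mul_zero, add_zero]
        · intro h0
          apply hi.2
          have : c' i = 0 := by simp only [hc', h0, zero_div]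
          rw [this, map_zero, zero_mul, add_zero]
      have h4 := Finset.card_le_card hsub
      have h5 : i₀ ∈ Finset.univ.filter fun i => c i ≠ 0 := Finset.mem_filter.2 ⟨Finset.mem_univ _, hi₀⟩
      rw [Finset.card_erase_of_mem h5] at h4
      omega
    have h4 : ∀ i, i ≠ i₀ → c' i = 0 := by
      intro i hi
      by_contra h0
      have h5 := congrFun h3 i
      simp only [Pi.zero_apply] at h5
      have h6 : D (c' i * s i * (s i₀)⁻¹) = 0 := by
        have h7 : D ((s i₀)⁻¹) = -u i₀ * (s i₀)⁻¹ := by
          rw [Derivation.leibniz_inv, hDs, smul_eq_mul]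
          have := hs0 i₀
          field_simp
        rw [Derivation.leibniz, Derivation.leibniz, h7, hDs i]
        simp only [smul_eq_mul]
        linear_combination (s i * (s i₀)⁻¹) * h5
      obtain ⟨κ, hκ⟩ := hconst _ h6
      apply hne i i₀ hi
      have h7 : s i / s i₀ = algebraMap ℂ E κ / c' i := by
        rw [hκ]
        field_simp
      rw [h7]
      exact k.div_mem (k.algebraMap_mem κ) (hc'k i)
    have h5 : c' i₀ * s i₀ = 0 := by
      rw [← h1]
      symm
      refine Finset.sum_eq_single i₀ (fun i _ hi => by rw [h4 i hi, zero_mul]) fun hh => absurd (Finset.mem_univ _) hh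
    have h6 : c' i₀ = 1 := div_self hi₀
    rw [h6, one_mul] at h5
    exact hs0 i₀ h5

/-- a complete set of representatives -/
theorem extend {ι : Type} [Fintype ι] {s : ι → E} (hs : ∀ i, Ei D k (s i)) (hne : ∀ i j, i ≠ j → s i / s j ∉ k) (n : ℕ)
    (g : Fin n → E) (hg : ∀ j, Ei D k (g j)) : ∃ (ι' : Type) (_ : Fintype ι') (s' : ι' → E) (em : ι → ι'),
      Function.Injective em ∧ (∀ i, s' (em i) = s i) ∧ (∀ i, Ei D k (s' i)) ∧ (∀ i j, i ≠ j → s' i / s' j ∉ k) ∧
      ∀ j, ∃ i, g j / s' i ∈ k := by
  classical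
  induction n with
  | zero => exact ⟨ι, inferInstance, s, id, Function.injective_id, fun _ => rfl, hs, hne, fun j => j.elim0⟩
  | succ n ih =>
    obtain ⟨ι', i1, s', em, h1, h2, h3, h4, h5⟩ := ih (fun j => g j.castSucc) fun j => hg _
    by_cases hex : ∃ i, g (Fin.last n) / s' i ∈ k
    · refine ⟨ι', i1, s', em, h1, h2, h3, h4, fun j => ?_⟩
      refine Fin.lastCases ?_ (fun j => ?_) j
      · exact hex
      · exact h5 j
    · push Not at hex
      refine ⟨Option ι', inferInstance, fun o => o.elim (g (Fin.last n)) s', fun i => some (em i), ?_, fun i => h2 i, ?_, ?_, ?_⟩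
      · intro i j hij
        exact h1 (Option.some_injective _ hij)
      · rintro (_ | i)
        · exact hg _
        · exact h3 i
      · rintro (_ | i) (_ | j) hij
        · exact absurd rfl hij
        · exact hex j
        · intro h6
          apply hex i
          have h7 := k.inv_mem h6
          rwa [inv_div] at h7
        · exact h4 i j fun h => hij (congrArg some h)
      · intro j
        refine Fin.lastCases ?_ (fun j => ?_) j
        · refine ⟨none, ?_⟩
          show g (Fin.last n) / g (Fin.last n) ∈ k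
          rw [div_self (hg _).1]
          exact k.one_mem
        · obtain ⟨i, hi⟩ := h5 j
          exact ⟨some i, hi⟩

/-- **The components.** -/
theorem coeffs (hconst : ∀ x : E, D x = 0 → ∃ c : ℂ, algebraMap ℂ E c = x) (hk : ∀ x ∈ k, D x ∈ k) {ι : Type} [Fintype ι]
    {s : ι → E} (hs : ∀ i, Ei D k (s i)) (hne : ∀ i j, i ≠ j → s i / s j ∉ k) (q : ι → E) (hq : ∀ i, q i ∈ k) {n : ℕ}
    (g : Fin n → E) (hg : ∀ j, Ei D k (g j)) (r : Fin n → E) (hr : ∀ j, r j ∈ k)
    (h : D (∑ j, r j * g j) = ∑ i, q i * s i) (i : ι) : ∃ ρ ∈ k, D (ρ * s i) = q i * s i := by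
  classical
  obtain ⟨ι', i1, s', em, h1, h2, h3, h4, h5⟩ := extend hs hne n g hg
  choose o ho using h5
  choose hs0 u hu hDs using h3
  set ρ : ι' → E := fun i' => ∑ j, if o j = i' then r j * (g j / s' i') else 0 with hρ
  have hρk : ∀ i', ρ i' ∈ k := fun i' => by
    refine sum_mem fun j _ => ?_
    split_ifs with hj
    · rw [← hj]
      exact k.mul_mem (hr j) (ho j)
    · exact k.zero_mem
  have h6 : ∑ j, r j * g j = ∑ i', ρ i' * s' i' := by
    simp only [hρ, Finset.sum_mul]
    rw [Finset.sum_comm]
    refine Finset.sum_congr rfl fun j _ => ?_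
    rw [Finset.sum_eq_single (o j)]
    · rw [if_pos rfl]
      have := hs0 (o j)
      field_simp
    · intro i' _ hi'
      rw [if_neg (Ne.symm hi'), zero_mul]
    · intro hh
      exact absurd (Finset.mem_univ _) hh
  have h7 : ∑ i', (D (ρ i') + ρ i' * u i' - ∑ i, if em i = i' then q i else 0) * s' i' = 0 := by
    have h8 : ∑ i, q i * s i = ∑ i', (∑ i, if em i = i' then q i else 0) * s' i' := by
      simp only [Finset.sum_mul]
      rw [Finset.sum_comm]
      refine Finset.sum_congr rfl fun i _ => ?_
      rw [Finset.sum_eq_single (em i)]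
      · rw [if_pos rfl, h2]
      · intro i' _ hi'
        rw [if_neg (Ne.symm hi'), zero_mul]
      · intro hh
        exact absurd (Finset.mem_univ _) hh
    rw [h6, map_sum, h8] at h
    rw [← sub_eq_zero, ← Finset.sum_sub_distrib] at h
    refine Eq.trans ?_ h
    refine Finset.sum_congr rfl fun i' _ => ?_
    rw [Derivation.leibniz, smul_eq_mul, smul_eq_mul, hDs]
    ring
  have h8 := congrFun (lin_ind hconst hk (fun i' => ⟨hs0 i', u i', hu i', hDs i'⟩) h4 _ (fun i' => by
    refine k.sub_mem (k.add_mem (hk _ (hρk i')) (k.mul_mem (hρk i') (hu i'))) (sum_mem fun i _ => ?_)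
    split_ifs
    · exact hq i
    · exact k.zero_mem) h7) (em i)
  simp only [Pi.zero_apply] at h8
  have h9 : (∑ j, if em j = em i then q j else 0) = q i := by
    rw [Finset.sum_eq_single i]
    · rw [if_pos rfl]
    · intro j _ hj
      rw [if_neg fun hh => hj (h1 hh)]
    · intro hh
      exact absurd (Finset.mem_univ _) hh
  rw [h9] at h8
  refine ⟨ρ (em i), hρk _, ?_⟩
  rw [← h2 i, Derivation.leibniz, smul_eq_mul, smul_eq_mul, hDs]
  linear_combination (s' (em i)) * h8

end Pool.Agent.NH25.EL
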