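import Pool.Agent.NH25.EL.Rep
import Pool.Agent.NH25.EL.Cfg
import Pool.Agent.NH25.FR.Aff
import Pool.Agent.NH19.EL.Near2

/-!
# Elliptic logarithms and logarithms near algebraic points
-/

set_option autoImplicit false

open Module Filter Topology
open scoped PeriodPair

namespace Pool.Agent.NH25.EL

open Pool.Agent.Y921.DB Pool.Agent.NH25.DL Pool.Agent.NH25.FR Pool.Agent.NH25.UF Pool.Agent.Y916.Hy

variable {k n m : ℕ} {κ₁ : Type}

/-- the numbers -/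
noncomputable def nums (F : Cfg k n m) (p : Fin k → Fin n → ℂ) (t : Fin k → Fin m → ℂ)
    (v : Fin k × ((Fin n × Fin 2) ⊕ Fin m)) : ℂ :=
  Sum.elim (fun e => (![p v.1 e.1, zeta (F.Λ v.1 e.1) (p v.1 e.1)] : Fin 2 → ℂ) e.2) (fun j => t v.1 j) v.2

/-- no relations of degree `δ` over the number fields of degree at most `D` -/
def NoRel (F : Cfg k n m) (w : κ₁ → ℂ) (D δ : ℕ) (s : Fin k → ℂ) : Prop :=
  ∀ (p : Fin k → Fin n → ℂ) (t : Fin k → Fin m → ℂ),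
    (∀ l i, p l i ∉ (F.Λ l i).lattice ∧ ℘[F.Λ l i] (p l i) = F.θ l i + s l) →
    (∀ l j, Complex.exp (t l j) = F.c l j + s l) →
    ∀ K : IntermediateField ℚ ℂ, FiniteDimensional ℚ K → finrank ℚ K ≤ D →
    ∀ P : MvPolynomial (κ₁ ⊕ (Fin k × ((Fin n × Fin 2) ⊕ Fin m))) ℂ, P.totalDegree ≤ δ → (∀ e, P.coeff e ∈ K) →
      MvPolynomial.eval (Sum.elim w (nums F p t)) P = 0 → sp w P = 0

/-- the indices of the constants -/
abbrev KK (k n m : ℕ) : Type := ((Fin k × Fin n) × Fin 6) ⊕ ((Fin k × Fin m) ⊕ Unit)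

/-- the constants -/
noncomputable def cc (F : Cfg k n m) (u : Fin k → Fin n → ℂ) : KK k n m → ℂ :=
  Sum.elim (fun v => (![u v.1.1 v.1.2, zeta (F.Λ v.1.1 v.1.2) (u v.1.1 v.1.2), (F.Λ v.1.1 v.1.2).ω₁, (F.Λ v.1.1 v.1.2).ω₂,
    zeta (F.Λ v.1.1 v.1.2) ((F.Λ v.1.1 v.1.2).ω₁ / 2), zeta (F.Λ v.1.1 v.1.2) ((F.Λ v.1.1 v.1.2).ω₂ / 2)] : Fin 6 → ℂ) v.2)
    (Sum.elim (fun v => Complex.log (F.c v.1 v.2)) fun _ => 2 * Real.pi * Complex.I)

/-- a linear combination of constants with few terms -/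
lemma comb {σ : Type} [Fintype σ] [DecidableEq σ] {r : ℕ} (x : σ → ℂ) (o : Fin r → σ) (b : Fin r → ℚ) :
    ∃ β : σ → ℚ, ∑ i, (b i : ℂ) * x (o i) = ∑ v, (β v : ℂ) * x v := by
  refine ⟨fun v => ∑ i, if o i = v then b i else 0, ?_⟩
  have h1 : ∀ v, (((∑ i, if o i = v then b i else 0 : ℚ)) : ℂ) * x v = ∑ i, if o i = v then (b i : ℂ) * x v else 0 := by
    intro v
    push_cast
    rw [Finset.sum_mul]
    refine Finset.sum_congr rfl fun i _ => ?_
    split_ifs <;> simp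
  rw [Finset.sum_congr rfl fun v _ => h1 v, Finset.sum_comm]
  refine Finset.sum_congr rfl fun i _ => ?_
  rw [Finset.sum_ite_eq, if_pos (Finset.mem_univ _)]

variable [Fintype κ₁]

/-- **The relations.** -/
theorem relE (F : Cfg k n m) (hk : 1 ≤ k) (w : κ₁ → ℂ) : ∃ (L : Type) (_ : Field L) (_ : NumberField L) (_ : Algebra L ℂ)
    (N : Fin k → ℕ) (H : ∀ l, Matrix (Fin (N l)) (Fin (N l)) (PowerSeries L)) (κ₂ : Type) (_ : Fintype κ₂)
    (P : (Fin k → ℂ) → (Fin k → ℂ) → κ₂ → ℂ) (ρ : ℝ), 0 < ρ ∧ (∀ l, LFam (0 : Matrix (Fin (N l)) (Fin (N l)) ℤ) (H l)) ∧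
      Nonempty (RepL P ρ H) ∧ ∀ r, 0 < r → r ≤ ρ → ∀ (D δ : ℕ) (s : Fin k → ℂ), (∀ l, s l ≠ 0) → Pnt D P r δ s →
        NoRel F w D δ s ∧ ∀ l j, F.c l j + s l ≠ 0 := by
  classical
  obtain ⟨L, i1, i2, i3, a, θ, c, u, hθ, hc, hu, ha, hai, hcu, hci, hpp, hcub⟩ := F.choices
  -- the facts near zero
  have E1 : ∀ᶠ s : ℂ in 𝓝 0, ∀ l i,
      u l i + VL (F0 (a l i)) s / ℘'[F.Λ l i] (u l i) ∉ (F.Λ l i).lattice ∧
      ℘[F.Λ l i] (u l i + VL (F0 (a l i)) s / ℘'[F.Λ l i] (u l i)) = F.θ l i + s ∧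
      zeta (F.Λ l i) (u l i + VL (F0 (a l i)) s / ℘'[F.Λ l i] (u l i)) =
        zeta (F.Λ l i) (u l i) - VL (F1 (a l i) (θ l i)) s / ℘'[F.Λ l i] (u l i) := by
    rw [Filter.eventually_all]
    intro l
    rw [Filter.eventually_all]
    intro i
    obtain ⟨hu1, hu2, hu3⟩ := hu l i
    have h1 := Pool.Agent.NH19.EL.wp_near (F.Λ l i) hu1 hu3 (VL (wI (a l i)))
      (fun s => VL (F0 (a l i)) s / ℘'[F.Λ l i] (u l i)) (fun s => VL (F1 (a l i) (θ l i)) s / ℘'[F.Λ l i] (u l i))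
      (wI_zero _) (by
        filter_upwards [vl_an (GFn_wI (a l i))] with s hs
        exact hs.continuousAt) (by
        filter_upwards [wI_val (a l i) (ha l i)] with s hs
        rw [hu2, hcub, hpp]
        have h2 : ∀ j, algebraMap L ℂ (a l i j) ≠ 0 := fun j => (map_ne_zero_iff _ (algebraMap L ℂ).injective).2 (ha l i j)
        have h3 : ∏ j, (s - algebraMap L ℂ (a l i j)) =
            -(∏ j, algebraMap L ℂ (a l i j)) * ∏ j, (1 - s / algebraMap L ℂ (a l i j)) := by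
          rw [Fin.prod_univ_three, Fin.prod_univ_three, Fin.prod_univ_three]
          have h4 := h2 0
          have h5 := h2 1
          have h6 := h2 2
          field_simp
          ring
        rw [h3]
        linear_combination (-4 * ∏ j, algebraMap L ℂ (a l i j)) * hs) (by simp [F0_zero]) (by
        filter_upwards [F0_der (a l i)] with s hs
        exact hs.div_const _) (by simp [F1_zero]) (by
        filter_upwards [F1_der (a l i) (θ l i)] with s hs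
        rw [hu2, ← hθ]
        exact hs.div_const _)
    filter_upwards [h1] with s hs
    rw [hu2] at hs
    exact hs
  have E2 : ∀ᶠ s : ℂ in 𝓝 0, ∀ l j, c l j ≠ 0 →
      F.c l j * Complex.exp (VL (lg (c l j)) s) = F.c l j + s := by
    rw [Filter.eventually_all]
    intro l
    rw [Filter.eventually_all]
    intro j
    by_cases hj : c l j = 0
    · exact Filter.Eventually.of_forall fun s h => absurd hj h
    · filter_upwards [lg_exp hj] with s hs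
      intro _
      rw [← hc]
      exact hs
  obtain ⟨ρ, hρ, hball⟩ := Metric.eventually_nhds_iff_ball.1 (E1.and E2)
  obtain ⟨N, H, hH, hR⟩ := repE a θ c (fun l i => ℘'[F.Λ l i] (u l i)) ha ⟨0, hk⟩ (Sum.elim w (cc F u)) ρ
  refine ⟨L, i1, i2, i3, N, H, (κ₁ ⊕ KK k n m) ⊕ (Fin k × ((Fin n × Fin 2) ⊕ Fin m)), inferInstance, _, ρ, hρ, hH, hR,
    fun r hr hrρ D δ s hs hP => ?_⟩
  have hsρ : ∀ l, s l ∈ Metric.ball (0 : ℂ) ρ := fun l => by
    rw [Metric.mem_ball, dist_zero_right]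
    exact (hP.1 l).trans_le hrρ
  refine ⟨fun p t hp ht K hK hKD Q hQd hQc hQ0 => ?_, fun l j => ?_⟩
  swap
  · by_cases hj : c l j = 0
    · rw [← hc, hj, map_zero, zero_add]
      exact hs l
    · rw [← (hball (s l) (hsρ l)).2 l j hj, ← hc]
      exact mul_ne_zero ((map_ne_zero_iff _ (algebraMap L ℂ).injective).2 hj) (Complex.exp_ne_zero _)
  have hInd := fE_ind a θ c (fun l i => ℘'[F.Λ l i] (u l i)) ha hai hcu hci hpp hr
  -- the logarithms
  set τ : Fin k → ℂ := fun l => Complex.log (1 / s l) with hτ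
  have hτe : ∀ l, Complex.exp (τ l) = 1 / s l := fun l => Complex.exp_log (one_div_ne_zero (hs l))
  have key : ∀ v : Fin k × ((Fin n × Fin 2) ⊕ Fin m), ∃ (α : ℚ) (β : κ₁ ⊕ KK k n m → ℚ), α ≠ 0 ∧
      nums F p t v = (α : ℂ) * fE a θ c (fun l i => ℘'[F.Λ l i] (u l i)) s τ v +
        ∑ o, (β o : ℂ) * (Sum.elim w (cc F u) : κ₁ ⊕ KK k n m → ℂ) o := by
    rintro ⟨l, ⟨i, j⟩ | j⟩
    · obtain ⟨h1, h2, h3⟩ := (hball (s l) (hsρ l)).1 l i
      obtain ⟨hp1, hp2⟩ := hp l i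
      obtain ⟨ε, m₁, m₂, hε, q1, q2⟩ := qp' (F.Λ l i) h1 hp1 (by rw [hp2, h2])
      have hε0 : (ε : ℚ) ≠ 0 := by
        rcases hε with h | h <;> rw [h] <;> norm_num
      fin_cases j
      · obtain ⟨β, hβ⟩ := comb (Sum.elim w (cc F u) : κ₁ ⊕ KK k n m → ℂ)
          (![Sum.inr (Sum.inl ((l, i), 0)), Sum.inr (Sum.inl ((l, i), 2)), Sum.inr (Sum.inl ((l, i), 3))] :
            Fin 3 → κ₁ ⊕ KK k n m) ![(ε : ℚ), (m₁ : ℚ), (m₂ : ℚ)]
        refine ⟨ε, β, hε0, ?_⟩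
        rw [← hβ, Fin.sum_univ_three]
        show p l i = ((ε : ℚ) : ℂ) * (VL (F0 (a l i)) (s l) / ℘'[F.Λ l i] (u l i)) +
          (((ε : ℚ) : ℂ) * u l i + ((m₁ : ℚ) : ℂ) * (F.Λ l i).ω₁ + ((m₂ : ℚ) : ℂ) * (F.Λ l i).ω₂)
        push_cast
        rw [q1]
        ring
      · obtain ⟨β, hβ⟩ := comb (Sum.elim w (cc F u) : κ₁ ⊕ KK k n m → ℂ)
          (![Sum.inr (Sum.inl ((l, i), 1)), Sum.inr (Sum.inl ((l, i), 4)), Sum.inr (Sum.inl ((l, i), 5))] :
            Fin 3 → κ₁ ⊕ KK k n m) ![(ε : ℚ), (2 * m₁ : ℚ), (2 * m₂ : ℚ)]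
        refine ⟨-ε, β, neg_ne_zero.2 hε0, ?_⟩
        rw [← hβ, Fin.sum_univ_three]
        show zeta (F.Λ l i) (p l i) = ((-ε : ℚ) : ℂ) * (VL (F1 (a l i) (θ l i)) (s l) / ℘'[F.Λ l i] (u l i)) +
          (((ε : ℚ) : ℂ) * zeta (F.Λ l i) (u l i) + ((2 * m₁ : ℚ) : ℂ) * zeta (F.Λ l i) ((F.Λ l i).ω₁ / 2) +
            ((2 * m₂ : ℚ) : ℂ) * zeta (F.Λ l i) ((F.Λ l i).ω₂ / 2))
        push_cast
        rw [q2, h3]
        push_cast
        ring
    · by_cases hj : c l j = 0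
      · -- the logarithm of `s`
        have h1 : Complex.exp (t l j) = Complex.exp (-τ l) := by
          rw [ht, ← hc, hj, map_zero, zero_add, Complex.exp_neg, hτe, one_div, inv_inv]
        obtain ⟨z, hz⟩ := Complex.exp_eq_exp_iff_exists_int.1 h1
        obtain ⟨β, hβ⟩ := comb (Sum.elim w (cc F u) : κ₁ ⊕ KK k n m → ℂ)
          (![Sum.inr (Sum.inr (Sum.inr ()))] : Fin 1 → κ₁ ⊕ KK k n m) ![(z : ℚ)]
        refine ⟨1, β, one_ne_zero, ?_⟩
        rw [← hβ, Fin.sum_univ_one]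
        have h2 : fE a θ c (fun l i => ℘'[F.Λ l i] (u l i)) s τ (l, Sum.inr j) = -τ l := by
          simp [fE, g1, hj]
        rw [h2]
        show t l j = ((1 : ℚ) : ℂ) * (-τ l) + ((z : ℚ) : ℂ) * (2 * Real.pi * Complex.I)
        rw [hz]
        push_cast
        ring
      · have hcj : F.c l j ≠ 0 := by
          rw [← hc]
          exact (map_ne_zero_iff _ (algebraMap L ℂ).injective).2 hj
        have h1 : Complex.exp (t l j) = Complex.exp (Complex.log (F.c l j) + VL (lg (c l j)) (s l)) := by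
          rw [ht, Complex.exp_add, Complex.exp_log hcj]
          exact ((hball (s l) (hsρ l)).2 l j hj).symm
        obtain ⟨z, hz⟩ := Complex.exp_eq_exp_iff_exists_int.1 h1
        obtain ⟨β, hβ⟩ := comb (Sum.elim w (cc F u) : κ₁ ⊕ KK k n m → ℂ)
          (![Sum.inr (Sum.inr (Sum.inl (l, j))), Sum.inr (Sum.inr (Sum.inr ()))] : Fin 2 → κ₁ ⊕ KK k n m) ![1, (z : ℚ)]
        refine ⟨1, β, one_ne_zero, ?_⟩
        rw [← hβ, Fin.sum_univ_two]
        have h2 : fE a θ c (fun l i => ℘'[F.Λ l i] (u l i)) s τ (l, Sum.inr j) = VL (lg (c l j)) (s l) := by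
          simp [fE, g1, hj]
        rw [h2]
        show t l j = ((1 : ℚ) : ℂ) * VL (lg (c l j)) (s l) + (((1 : ℚ) : ℂ) * Complex.log (F.c l j) +
          ((z : ℚ) : ℂ) * (2 * Real.pi * Complex.I))
        rw [hz]
        push_cast
        ring
  choose α β hα hy using key
  exact aff hInd hP hK hKD hτe hQd hQc _ α hα β hy hQ0

end Pool.Agent.NH25.EL
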