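import Mathlib

/-!
# Polynomial lemmas
-/

set_option autoImplicit false

open Polynomial

namespace Pool.Agent.NH25.EL

variable {f : ℂ[X]}

/-- a square-free polynomial of positive degree is not a square of a rational function -/
theorem nosq (hf : Squarefree f) (hm : 1 ≤ f.natDegree) (A B : ℂ[X]) (h : A * A = B * B * f) : A = 0 ∧ B = 0 := by
  have hB : B = 0 := by
    by_contra hB
    have h1 : B ^ 2 ∣ A ^ 2 := ⟨f, by rw [sq, sq]; exact h⟩
    obtain ⟨G, rfl⟩ := (UniqueFactorizationMonoid.pow_dvd_pow_iff_dvd two_ne_zero).1 h1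
    have h2 : G * G = f := by
      have h3 : B * B * (G * G) = B * B * f := by rw [← h]; ring
      exact mul_left_cancel₀ (mul_ne_zero hB hB) h3
    have h4 : IsUnit G := hf G ⟨1, by rw [mul_one, h2]⟩
    have h5 : f.natDegree = 0 := by
      rw [← h2]
      exact natDegree_eq_zero_of_isUnit (h4.mul h4)
    omega
  refine ⟨?_, hB⟩
  rw [hB] at h
  simpa using h

/-- no poles -/
theorem nopole (hf : Squarefree f) (P Q W : ℂ[X]) (hPQ : IsCoprime P Q) (hQ : Q ≠ 0)
    (h : 2 * f * (derivative P * Q - P * derivative Q) + P * derivative f * Q = 2 * Q * Q * W) : IsUnit Q := by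
  by_contra hu
  obtain ⟨π, hπ, hπQ⟩ := WfDvdMonoid.exists_irreducible_factor hu hQ
  have hπp : Prime π := hπ.prime
  obtain ⟨k, R, hR, hQR⟩ := WfDvdMonoid.max_power_factor hQ hπ
  have hk : k ≠ 0 := by
    rintro rfl
    apply hR
    rw [pow_zero, one_mul] at hQR
    rw [← hQR]
    exact hπQ
  obtain ⟨j, rfl⟩ := Nat.exists_eq_succ_of_ne_zero hk
  have hπ0 : π ≠ 0 := hπ.ne_zero
  have hπ' : ¬ π ∣ derivative π := by
    intro hd
    have h1 : derivative π = 0 := by
      by_contra hne
      have h2 := natDegree_le_of_dvd hd hne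
      have h3 : 0 < π.natDegree := hπ.natDegree_pos
      have h4 := natDegree_derivative_lt h3.ne'
      omega
    have h3 : 0 < π.natDegree := hπ.natDegree_pos
    have := derivative_eq_zero.1 h1
    omega
  have hπP : ¬ π ∣ P := by
    intro hd
    obtain ⟨u, v, huv⟩ := hPQ
    exact hπ.not_isUnit (isUnit_of_dvd_one (huv ▸ dvd_add (hd.mul_left u) (hπQ.mul_left v)))
  -- the derivative of `Q`
  have hQ' : derivative Q = π ^ j * (((j : ℂ[X]) + 1) * derivative π * R + π * derivative R) := by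
    rw [hQR, derivative_mul, derivative_pow]
    simp only [Nat.succ_eq_add_one, Nat.add_sub_cancel]
    push_cast
    simp only [map_add, map_natCast, map_one]
    ring
  have hc : ∀ c : ℂ, c ≠ 0 → ¬ π ∣ C c := by
    intro c hc0 hd
    exact hπ.not_isUnit (isUnit_of_dvd_unit hd (isUnit_C.2 (isUnit_iff_ne_zero.2 hc0)))
  have h2C : (C (2 : ℂ) : ℂ[X]) = 2 := map_ofNat C 2
  have hj0 : ¬ π ∣ ((j : ℂ[X]) + 1) := by
    have h1 : ((j : ℂ[X]) + 1) = C ((j : ℂ) + 1) := by simp
    rw [h1]
    exact hc _ (by exact_mod_cast Nat.succ_ne_zero j)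
  -- `π` divides `f`
  have hπf : π ∣ f := by
    have h1 : π ^ j * (π * (2 * f * derivative P * R + P * derivative f * R - 2 * π ^ (j + 1) * R * R * W)) =
        π ^ j * (2 * f * P * (((j : ℂ[X]) + 1) * derivative π * R + π * derivative R)) := by
      have h2 := h
      rw [hQ', hQR] at h2
      simp only [Nat.succ_eq_add_one] at h2
      linear_combination h2
    have h3 := mul_left_cancel₀ (pow_ne_zero j hπ0) h1
    have h4 : π ∣ 2 * f * P * (((j : ℂ[X]) + 1) * derivative π * R + π * derivative R) := ⟨_, h3.symm⟩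
    rcases hπp.dvd_or_dvd h4 with h5 | h5
    · rcases hπp.dvd_or_dvd h5 with h6 | h6
      · rcases hπp.dvd_or_dvd h6 with h7 | h7
        · rw [← h2C] at h7
          exact absurd h7 (hc 2 (by norm_num))
        · exact h7
      · exact absurd h6 hπP
    · exfalso
      have h6 : π ∣ ((j : ℂ[X]) + 1) * derivative π * R := by
        have h7 := dvd_sub h5 (Dvd.intro (derivative R) rfl : π ∣ π * derivative R)
        simpa using h7
      rcases hπp.dvd_or_dvd h6 with h7 | h7
      · rcases hπp.dvd_or_dvd h7 with h8 | h8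
        · exact hj0 h8
        · exact hπ' h8
      · exact hR h7
  obtain ⟨g, rfl⟩ := hπf
  have hπg : ¬ π ∣ g := by
    rintro ⟨g', rfl⟩
    exact hπ.not_isUnit (hf π ⟨g', by ring⟩)
  -- divide once more
  have h1 : π ^ (j + 1) * (π * (2 * g * derivative P * R + P * derivative g * R - 2 * π ^ j * R * R * W -
      2 * g * P * derivative R)) =
      π ^ (j + 1) * (g * P * R * derivative π * (2 * ((j : ℂ[X]) + 1) - 1)) := by
    have h2 := h
    rw [hQ', hQR, derivative_mul] at h2
    simp only [Nat.succ_eq_add_one] at h2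
    linear_combination h2
  have h3 := mul_left_cancel₀ (pow_ne_zero (j + 1) hπ0) h1
  have h4 : π ∣ g * P * R * derivative π * (2 * ((j : ℂ[X]) + 1) - 1) := ⟨_, h3.symm⟩
  rcases hπp.dvd_or_dvd h4 with h5 | h5
  · rcases hπp.dvd_or_dvd h5 with h6 | h6
    · rcases hπp.dvd_or_dvd h6 with h7 | h7
      · rcases hπp.dvd_or_dvd h7 with h8 | h8
        · exact hπg h8
        · exact hπP h8
      · exact hR h7
    · exact hπ' h6
  · have h6 : (2 * ((j : ℂ[X]) + 1) - 1) = C (2 * ((j : ℂ) + 1) - 1) := by simp [h2C]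
    rw [h6] at h5
    refine hc _ ?_ h5
    intro h0
    have h9 : ((2 * (j + 1) : ℕ) : ℂ) = ((1 : ℕ) : ℂ) := by
      push_cast
      linear_combination h0
    have h10 := Nat.cast_injective h9
    omega

theorem key (hf : Squarefree f) (P Q W : ℂ[X]) (hQ : Q ≠ 0) (hW : W.natDegree + 2 ≤ f.natDegree)
    (h : 2 * f * (derivative P * Q - P * derivative Q) + P * derivative f * Q = 2 * Q * Q * W) : W = 0 := by
  classical
  -- lowest terms
  obtain ⟨g, P1, Q1, hg0, hco, rfl, rfl⟩ : ∃ g P1 Q1 : ℂ[X], g ≠ 0 ∧ IsCoprime P1 Q1 ∧ P = g * P1 ∧ Q = g * Q1 := by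
    have hg0 : EuclideanDomain.gcd P Q ≠ 0 := by
      intro h0
      exact hQ ((EuclideanDomain.gcd_eq_zero_iff.1 h0).2)
    obtain ⟨P1, hP1⟩ := EuclideanDomain.gcd_dvd_left P Q
    obtain ⟨Q1, hQ1⟩ := EuclideanDomain.gcd_dvd_right P Q
    refine ⟨_, P1, Q1, hg0, ?_, hP1, hQ1⟩
    have hb := EuclideanDomain.gcd_eq_gcd_ab P Q
    refine ⟨EuclideanDomain.gcdA P Q, EuclideanDomain.gcdB P Q, ?_⟩
    apply mul_left_cancel₀ hg0
    calc EuclideanDomain.gcd P Q * (EuclideanDomain.gcdA P Q * P1 + EuclideanDomain.gcdB P Q * Q1) =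
          (EuclideanDomain.gcd P Q * P1) * EuclideanDomain.gcdA P Q +
          (EuclideanDomain.gcd P Q * Q1) * EuclideanDomain.gcdB P Q := by ring
      _ = P * EuclideanDomain.gcdA P Q + Q * EuclideanDomain.gcdB P Q := by rw [← hP1, ← hQ1]
      _ = EuclideanDomain.gcd P Q * 1 := by rw [mul_one]; exact hb.symm
  have hQ1 : Q1 ≠ 0 := right_ne_zero_of_mul hQ
  have h1 : 2 * f * (derivative P1 * Q1 - P1 * derivative Q1) + P1 * derivative f * Q1 = 2 * Q1 * Q1 * W := by
    apply mul_left_cancel₀ (mul_ne_zero hg0 hg0)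
    rw [derivative_mul, derivative_mul] at h
    linear_combination h
  have hu := nopole hf P1 Q1 W hco hQ1 h1
  have hdQ : derivative Q1 = 0 := by
    rw [derivative_eq_zero]
    exact natDegree_eq_zero_of_isUnit hu
  have h2 : 2 * f * derivative P1 + P1 * derivative f = 2 * Q1 * W := by
    apply mul_left_cancel₀ hQ1
    rw [hdQ] at h1
    linear_combination h1
  by_contra hW0
  have hP1 : P1 ≠ 0 := by
    rintro rfl
    rw [derivative_zero, mul_zero, zero_mul, add_zero] at h2
    have : (2 : ℂ[X]) * Q1 * W ≠ 0 := mul_ne_zero (mul_ne_zero two_ne_zero hQ1) hW0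
    exact this h2.symm
  have hf0 : f ≠ 0 := by
    rintro rfl
    simp at hW
  have h3 : derivative (P1 ^ 2 * f) = P1 * (2 * Q1 * W) := by
    rw [← h2, derivative_mul, derivative_pow]
    simp only [Nat.cast_ofNat, map_ofNat, Nat.add_one_sub_one, pow_one]
    ring
  have h4 : (P1 ^ 2 * f).natDegree = 2 * P1.natDegree + f.natDegree := by
    rw [natDegree_mul (pow_ne_zero _ hP1) hf0, natDegree_pow]
  have h5 : (derivative (P1 ^ 2 * f)).natDegree = (P1 ^ 2 * f).natDegree - 1 := natDegree_derivative _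
  have h6 : (P1 * (2 * Q1 * W)).natDegree = P1.natDegree + W.natDegree := by
    rw [natDegree_mul hP1 (mul_ne_zero (mul_ne_zero two_ne_zero hQ1) hW0),
      natDegree_mul (mul_ne_zero two_ne_zero hQ1) hW0, natDegree_mul two_ne_zero hQ1,
      natDegree_eq_zero_of_isUnit hu]
    have : (2 : ℂ[X]).natDegree = 0 := natDegree_ofNat 2
    rw [this]
    omega
  rw [h3, h6, h4] at h5
  omega

end Pool.Agent.NH25.EL
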