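import Pool.Agent.NH25.EL.Fun
import Pool.Agent.NH25.DL.Cnt

/-!
# The representation of the functions
-/

set_option autoImplicit false

open PowerSeries

namespace Pool.Agent.NH25.EL

open Pool.Agent.Y921.DB Pool.Agent.NH25.DL Pool.Agent.NH25.FR

variable {L : Type} [Field L] [NumberField L] {n m k : ℕ}

/-- one system for all functions of a variable -/
theorem famH (a : Fin n → Fin 3 → L) (θ : Fin n → L) (c : Fin m → L) (ha : ∀ i j, a i j ≠ 0) :
    ∃ (N : ℕ) (H : Matrix (Fin N) (Fin N) L⟦X⟧), LFam (0 : Matrix (Fin N) (Fin N) ℤ) H ∧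
      (∀ i j, ∃ x y, H x y = (![F0 (a i), F1 (a i) (θ i)] : Fin 2 → L⟦X⟧) j) ∧
      ∀ j, c j ≠ 0 → ∃ x y, H x y = lg (c j) := by
  classical
  obtain ⟨N, H, hH, hl⟩ := lfam_list (((List.finRange n).map fun i => (⟨3, HE (a i) (θ i)⟩ : Σ n : ℕ, Matrix (Fin n) (Fin n) L⟦X⟧)) ++
    (((List.finRange m).filter fun j => c j ≠ 0).map fun j => (⟨2, HL (c j)⟩ : Σ n : ℕ, Matrix (Fin n) (Fin n) L⟦X⟧)))
    (by
      intro x hx
      rcases List.mem_append.1 hx with hx | hx
      · obtain ⟨i, -, rfl⟩ := List.mem_map.1 hx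
        exact lfamE (a i) (θ i) (ha i)
      · obtain ⟨j, hj, rfl⟩ := List.mem_map.1 hx
        rw [List.mem_filter] at hj
        exact lfamL (c j) (by simpa using hj.2))
  refine ⟨N, H, hH, fun i j => ?_, fun j hj => ?_⟩
  · have h1 := hl ⟨3, HE (a i) (θ i)⟩ (List.mem_append.2 (Or.inl (List.mem_map.2 ⟨i, List.mem_finRange i, rfl⟩)))
    fin_cases j
    · exact h1 2 0
    · exact h1 2 1
  · have h1 := hl ⟨2, HL (c j)⟩ (List.mem_append.2 (Or.inr (List.mem_map.2 ⟨j, List.mem_filter.2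
      ⟨List.mem_finRange j, by simpa using hj⟩, rfl⟩)))
    exact h1 0 1

lemma sum_single {N : ℕ} (x y : Fin N) (r : ℂ) (V : Fin N → Fin N → ℂ) :
    ∑ a, ∑ a', (Matrix.single x y r : Matrix (Fin N) (Fin N) ℂ) a a' * V a a' = r * V x y := by
  rw [Finset.sum_eq_single x]
  · rw [Finset.sum_eq_single y]
    · rw [Matrix.single_apply_same]
    · intro b _ hb
      rw [Matrix.single_apply_of_ne _ _ _ _ _ (fun h => hb h.2.symm), zero_mul]
    · intro hh
      exact absurd (Finset.mem_univ _) hh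
  · intro b _ hb
    refine Finset.sum_eq_zero fun b' _ => ?_
    rw [Matrix.single_apply_of_ne _ _ _ _ _ (fun h => hb h.1.symm), zero_mul]
  · intro hh
    exact absurd (Finset.mem_univ _) hh

variable [Algebra L ℂ] {κ : Type}

/-- **The representation.** -/
theorem repE (a : Fin k → Fin n → Fin 3 → L) (θ : Fin k → Fin n → L) (c : Fin k → Fin m → L)
    (pp : Fin k → Fin n → ℂ) (ha : ∀ l i j, a l i j ≠ 0) (l₀ : Fin k) (cw : κ → ℂ) (ρ : ℝ) :
    ∃ (N : Fin k → ℕ) (H : ∀ l, Matrix (Fin (N l)) (Fin (N l)) L⟦X⟧), (∀ l, LFam (0 : Matrix (Fin (N l)) (Fin (N l)) ℤ) (H l)) ∧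
      Nonempty (RepL (Pc cw (fE a θ c pp)) ρ H) := by
  classical
  choose N H hH hF hlg using fun l => famH (a l) (θ l) (c l) (ha l)
  choose x y hxy using hF
  choose x' y' hxy' using hlg
  refine ⟨N, H, hH, ⟨⟨1, Sum.elim (fun _ => l₀) Prod.fst,
    Sum.elim (fun o j => if j = 0 then cw o else 0) (fun v => Sum.elim (fun _ _ => 0)
      (fun i j => if c v.1 i = 0 then (if j = 0 then 0 else -1) else 0) v.2),
    fun i => match i with
      | Sum.inl _ => fun _ => 0
      | Sum.inr (l, Sum.inl e) => fun j => if j = 0 then Matrix.single (x l e.1 e.2) (y l e.1 e.2) (pp l e.1)⁻¹ else 0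
      | Sum.inr (l, Sum.inr i) => fun j => if h : c l i = 0 then 0 else
          (if j = 0 then Matrix.single (x' l i h) (y' l i h) 1 else 0), fun z hz t i => ?_⟩⟩⟩
  rcases i with o | ⟨l, e | i⟩
  · simp [Pc, Fin.sum_univ_two]
  · have key : fE a θ c pp z t (l, Sum.inl e) = ∑ j : Fin (1 + 1), ((0 : ℂ) + ∑ x1, ∑ x2,
        (if j = 0 then Matrix.single (x l e.1 e.2) (y l e.1 e.2) (pp l e.1)⁻¹ else 0 :
          Matrix (Fin (N l)) (Fin (N l)) ℂ) x1 x2 * VL (H l x1 x2) (z l)) * t l ^ (j : ℕ) := by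
      rw [Fin.sum_univ_two, if_pos rfl, if_neg (by decide), sum_single, hxy]
      simp only [Matrix.zero_apply, zero_mul, Finset.sum_const_zero, add_zero, zero_add, Fin.isValue, Fin.val_zero,
        pow_zero, mul_one, fE, g1, Sum.elim_inl]
      obtain ⟨i, j⟩ := e
      fin_cases j
      · simp [div_eq_inv_mul]
      · simp [div_eq_inv_mul]
    exact key
  · by_cases h : c l i = 0
    · have key : fE a θ c pp z t (l, Sum.inr i) = ∑ j : Fin (1 + 1), ((if j = 0 then 0 else -1 : ℂ) + ∑ x1, ∑ x2,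
          (0 : Matrix (Fin (N l)) (Fin (N l)) ℂ) x1 x2 * VL (H l x1 x2) (z l)) * t l ^ (j : ℕ) := by
        rw [Fin.sum_univ_two, if_pos rfl, if_neg (by decide)]
        simp only [Matrix.zero_apply, zero_mul, Finset.sum_const_zero, add_zero, zero_add, Fin.isValue, Fin.val_one,
          pow_one, fE, g1, Sum.elim_inr, h, if_true]
        ring
      refine key.trans (Finset.sum_congr rfl fun j _ => ?_)
      simp only [Sum.elim_inr, h, dif_pos, if_true]
      rfl
    · have key : fE a θ c pp z t (l, Sum.inr i) = ∑ j : Fin (1 + 1), ((0 : ℂ) + ∑ x1, ∑ x2,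
          (if j = 0 then Matrix.single (x' l i h) (y' l i h) 1 else 0 :
            Matrix (Fin (N l)) (Fin (N l)) ℂ) x1 x2 * VL (H l x1 x2) (z l)) * t l ^ (j : ℕ) := by
        rw [Fin.sum_univ_two, if_pos rfl, if_neg (by decide), sum_single, hxy']
        simp only [Matrix.zero_apply, zero_mul, Finset.sum_const_zero, add_zero, zero_add, Fin.isValue, Fin.val_zero,
          pow_zero, mul_one, fE, g1, Sum.elim_inr, h, if_false, one_mul]
      refine key.trans (Finset.sum_congr rfl fun j _ => ?_)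
      simp only [Sum.elim_inr, h, dif_neg, if_false, not_false_eq_true]
      rfl

end Pool.Agent.NH25.EL
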