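import Pool.Agent.NH25.EL.Fam
import Pool.Agent.NH25.UF.An

/-!
# Values of G-functions near the centre
-/

set_option autoImplicit false

open PowerSeries Filter Topology

namespace Pool.Agent.NH25.EL

open Pool.Agent.Y921.DB Pool.Agent.NH25.DL

variable {L : Type} [Field L] [NumberField L] [Algebra L ℂ]

lemma smn {A : ℝ} {g : L⟦X⟧} (h : GFp A g) {z : ℂ} (hz : ‖z‖ * A < 1) :
    Summable fun m : ℕ => ‖algebraMap L ℂ (coeff m g) * z ^ m‖ := by
  have hA := h.one_le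
  have h1 : Summable fun m : ℕ => A * (‖z‖ * A) ^ m :=
    (summable_geometric_of_lt_one (by positivity) hz).mul_left _
  refine Summable.of_nonneg_of_le (fun _ => norm_nonneg _) (fun m => ?_) h1
  rw [norm_mul, norm_pow]
  have h2 := h.1 (algebraMap L ℂ) m
  calc _ ≤ A ^ (m + 1) * ‖z‖ ^ m := mul_le_mul_of_nonneg_right h2 (by positivity)
    _ = _ := by rw [mul_pow]; ring

lemma ev_of {A : ℝ} (hA : 1 ≤ A) : ∀ᶠ z : ℂ in 𝓝 0, ‖z‖ * A < 1 := by
  have h1 : Metric.ball (0 : ℂ) (1 / A) ∈ 𝓝 (0 : ℂ) := Metric.ball_mem_nhds _ (by positivity)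
  filter_upwards [h1] with z hz
  rw [Metric.mem_ball, dist_zero_right, lt_div_iff₀ (by linarith)] at hz
  exact hz

lemma vl_mul {f g : L⟦X⟧} (hf : GFn f) (hg : GFn g) : ∀ᶠ z : ℂ in 𝓝 0, VL (f * g) z = VL f z * VL g z := by
  obtain ⟨A, hA⟩ := hf
  obtain ⟨B, hB⟩ := hg
  filter_upwards [ev_of hA.one_le, ev_of hB.one_le] with z hz1 hz2
  unfold VL
  rw [tsum_mul_tsum_eq_tsum_sum_antidiagonal_of_summable_norm (smn hA hz1) (smn hB hz2)]
  refine tsum_congr fun m => ?_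
  rw [coeff_mul, map_sum, Finset.sum_mul]
  refine Finset.sum_congr rfl fun x hx => ?_
  have hx' : x.1 + x.2 = m := by simpa using hx
  rw [← hx', map_mul, pow_add]
  ring

lemma vl_add {f g : L⟦X⟧} (hf : GFn f) (hg : GFn g) : ∀ᶠ z : ℂ in 𝓝 0, VL (f + g) z = VL f z + VL g z := by
  obtain ⟨A, hA⟩ := hf
  obtain ⟨B, hB⟩ := hg
  filter_upwards [ev_of hA.one_le, ev_of hB.one_le] with z hz1 hz2
  unfold VL
  rw [← (smn hA hz1).of_norm.tsum_add (smn hB hz2).of_norm]
  refine tsum_congr fun m => ?_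
  rw [map_add, map_add, add_mul]

omit [NumberField L] in
lemma vl_C (x : L) (z : ℂ) : VL (C x) z = algebraMap L ℂ x := by
  unfold VL
  rw [tsum_eq_single 0]
  · simp
  · intro m hm
    rw [coeff_C, if_neg hm]
    simp

omit [NumberField L] in
lemma vl_X (z : ℂ) : VL (X : L⟦X⟧) z = z := by
  unfold VL
  rw [tsum_eq_single 1]
  · simp
  · intro m hm
    rw [coeff_X, if_neg hm]
    simp

omit [NumberField L] in
lemma vl_zero (g : L⟦X⟧) : VL g 0 = algebraMap L ℂ (coeff 0 g) := by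
  unfold VL
  rw [tsum_eq_single 0]
  · simp
  · intro m hm
    rw [zero_pow hm, mul_zero]

lemma vl_an {g : L⟦X⟧} (hg : GFn g) : ∀ᶠ z : ℂ in 𝓝 0, AnalyticAt ℂ (VL g) z := by
  obtain ⟨A, hA⟩ := hg
  have h1 := hA.one_le
  have h2 := Pool.Agent.NH25.UF.VL_an (g := g) (A := A) (by linarith) (hA.1 (algebraMap L ℂ))
  have h3 : Metric.ball (0 : ℂ) (1 / A) ∈ 𝓝 (0 : ℂ) := Metric.ball_mem_nhds _ (by positivity)
  filter_upwards [h3] with z hz
  exact h2 z hz

lemma vl_der {g : L⟦X⟧} (hg : GFn g) : ∀ᶠ z : ℂ in 𝓝 0, HasDerivAt (VL g) (VL (d⁄dX L g) z) z := by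
  have han := vl_an hg
  obtain ⟨A, hA⟩ := hg
  have hA1 := hA.one_le
  filter_upwards [ev_of hA1, han] with z hz hza
  obtain ⟨s, hs1, hs2⟩ : ∃ s : ℝ, ‖z‖ < s ∧ s * A < 1 := by
    have h1 : ‖z‖ < 1 / A := by
      rw [lt_div_iff₀ (by linarith)]
      exact hz
    obtain ⟨s, h2, h3⟩ := exists_between h1
    rw [lt_div_iff₀ (by linarith)] at h3
    exact ⟨s, h2, h3⟩
  have hs0 : 0 ≤ s := (norm_nonneg z).trans hs1.le
  have h1 : HasSum (fun m : ℕ => deriv (fun w : ℂ => algebraMap L ℂ (coeff m g) * w ^ m) z)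
      (deriv (fun w => ∑' m : ℕ, algebraMap L ℂ (coeff m g) * w ^ m) z) := by
    refine Complex.hasSum_deriv_of_summable_norm (u := fun m => A * (A * s) ^ m)
      (U := Metric.ball 0 s) ((summable_geometric_of_lt_one (by positivity) (by linarith)).mul_left _) (fun m => ?_)
      Metric.isOpen_ball (fun m w hw => ?_) (by simpa using hs1)
    · exact ((differentiable_const _).mul (differentiable_pow m)).differentiableOn
    · rw [Metric.mem_ball, dist_zero_right] at hw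
      rw [norm_mul, norm_pow]
      calc ‖algebraMap L ℂ (coeff m g)‖ * ‖w‖ ^ m ≤ A ^ (m + 1) * s ^ m :=
            mul_le_mul (hA.1 _ m) (pow_le_pow_left₀ (norm_nonneg _) hw.le _) (by positivity) (by positivity)
        _ = _ := by rw [mul_pow, pow_succ]; ring
  have h2 : ∀ m : ℕ, deriv (fun w : ℂ => algebraMap L ℂ (coeff m g) * w ^ m) z =
      algebraMap L ℂ (coeff m g) * (m * z ^ (m - 1)) := by
    intro m
    rw [deriv_const_mul _ (differentiableAt_pow m), deriv_pow_field]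
  simp only [h2] at h1
  have h3 : deriv (VL g) z = VL (d⁄dX L g) z := by
    have h4 : deriv (VL g) z = ∑' m : ℕ, algebraMap L ℂ (coeff m g) * (m * z ^ (m - 1)) := h1.tsum_eq.symm
    rw [h4, h1.summable.tsum_eq_zero_add]
    simp only [Nat.cast_zero, zero_mul, mul_zero, zero_add, Nat.add_sub_cancel]
    unfold VL
    refine tsum_congr fun m => ?_
    rw [coeff_derivative, map_mul, map_add, map_one, map_natCast]
    push_cast
    ring
  rw [← h3]
  exact hza.differentiableAt.hasDerivAt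

lemma vl_prod {ι : Type*} (s : Finset ι) (F : ι → L⟦X⟧) (h : ∀ i ∈ s, GFn (F i)) :
    ∀ᶠ z : ℂ in 𝓝 0, VL (∏ i ∈ s, F i) z = ∏ i ∈ s, VL (F i) z := by
  classical
  induction s using Finset.induction_on with
  | empty =>
    refine Filter.Eventually.of_forall fun z => ?_
    rw [Finset.prod_empty, Finset.prod_empty]
    have := vl_C (1 : L) z
    rwa [map_one, map_one] at this
  | insert a s ha ih =>
    have h1 := vl_mul (h a (Finset.mem_insert_self a s)) (GFn.prod s F fun i hi => h i (Finset.mem_insert_of_mem hi))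
    filter_upwards [h1, ih fun i hi => h i (Finset.mem_insert_of_mem hi)] with z hz1 hz2
    rw [Finset.prod_insert ha, Finset.prod_insert ha, hz1, hz2]

/-- the value of the inverse square root -/
theorem wI_val (a : Fin 3 → L) (ha : ∀ j, a j ≠ 0) : ∀ᶠ z : ℂ in 𝓝 0,
    VL (wI a) z ^ 2 * ∏ j, (1 - z / algebraMap L ℂ (a j)) = 1 := by
  have h1 : wI a * wI a * ∏ j, (C 1 + C (-(a j)⁻¹) * X) = (1 : L⟦X⟧) := by
    rw [wI_sq, ← Finset.prod_mul_distrib]
    refine Finset.prod_eq_one fun j _ => ?_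
    have := ge_mul (a j)
    rw [map_one, map_neg]
    linear_combination this
  have hG : ∀ j, GFn (C 1 + C (-(a j)⁻¹) * X : L⟦X⟧) := fun j => (GFn.const _).add ((GFn.const _).mul GFn.X)
  have e1 := vl_mul ((GFn_wI a).mul (GFn_wI a)) (GFn.prod Finset.univ (fun j => (C 1 + C (-(a j)⁻¹) * X : L⟦X⟧)) fun j _ => hG j)
  have e2 := vl_mul (GFn_wI a) (GFn_wI a)
  have e3 := vl_prod Finset.univ (fun j => (C 1 + C (-(a j)⁻¹) * X : L⟦X⟧)) fun j _ => hG j
  have e4 : ∀ᶠ z : ℂ in 𝓝 0, ∀ j, VL (C 1 + C (-(a j)⁻¹) * X : L⟦X⟧) z = 1 - z / algebraMap L ℂ (a j) := by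
    rw [Filter.eventually_all]
    intro j
    filter_upwards [vl_add (GFn.const (1 : L)) ((GFn.const (-(a j)⁻¹)).mul GFn.X),
      vl_mul (GFn.const (-(a j)⁻¹)) GFn.X] with z h5 h6
    rw [h5, h6, vl_C, vl_C, vl_X, map_one, map_neg, map_inv₀]
    ring
  filter_upwards [e1, e2, e3, e4] with z h5 h6 h7 h8
  rw [h1, h6, h7] at h5
  have h9 := vl_C (1 : L) z
  rw [map_one, map_one] at h9
  rw [h9] at h5
  rw [sq]
  refine Eq.trans ?_ h5.symm
  congr 1
  exact Finset.prod_congr rfl fun j _ => (h8 j).symm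

lemma wI_zero (a : Fin 3 → L) : VL (wI a) 0 = 1 := by
  rw [vl_zero]
  have h1 : coeff 0 (wI a) = 1 := by
    unfold wI Pool.Agent.Y921.DB.Bp
    rw [coeff_zero_eq_constantCoeff_apply, map_prod]
    exact Finset.prod_eq_one fun j _ => Bn_coeff_zero _ _
  rw [h1, map_one]

lemma wS_val (a : Fin 3 → L) : ∀ᶠ z : ℂ in 𝓝 0, VL (wS a) z * VL (wI a) z = 1 := by
  filter_upwards [vl_mul (GFn_wS a) (GFn_wI a)] with z hz
  rw [← hz, w_mul]
  have := vl_C (1 : L) z
  rwa [map_one, map_one] at this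

lemma F0_der (a : Fin 3 → L) : ∀ᶠ z : ℂ in 𝓝 0, HasDerivAt (VL (F0 a)) (VL (wI a) z) z := by
  filter_upwards [vl_der (GFn_F0 a)] with z hz
  rwa [F0, der_Pr] at hz

lemma F0_zero (a : Fin 3 → L) : VL (F0 a) 0 = 0 := by
  rw [vl_zero, F0, coeff_Pr_zero, map_zero]

lemma F1_der (a : Fin 3 → L) (θ : L) : ∀ᶠ z : ℂ in 𝓝 0,
    HasDerivAt (VL (F1 a θ)) ((algebraMap L ℂ θ + z) * VL (wI a) z) z := by
  filter_upwards [vl_der (GFn_F1 a θ), vl_mul ((GFn.const θ).add GFn.X) (GFn_wI a), vl_add (GFn.const θ) GFn.X] with z hz h1 h2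
  rw [F1, der_Pr, h1, h2, vl_C, vl_X] at hz
  exact hz

lemma F1_zero (a : Fin 3 → L) (θ : L) : VL (F1 a θ) 0 = 0 := by
  rw [vl_zero, F1, coeff_Pr_zero, map_zero]

lemma lg_der {c : L} (hc : c ≠ 0) : ∀ᶠ z : ℂ in 𝓝 0, HasDerivAt (VL (lg c)) (1 / (algebraMap L ℂ c + z)) z := by
  have hc' : algebraMap L ℂ c ≠ 0 := (map_ne_zero_iff _ (algebraMap L ℂ).injective).2 hc
  have h1 : (C c + X) * (C c⁻¹ * ge (-c)) = (1 : L⟦X⟧) := by
    have h2 := ge_mul (-c)
    have h3 : C c * C c⁻¹ = (1 : L⟦X⟧) := by rw [← map_mul, mul_inv_cancel₀ hc, map_one]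
    rw [inv_neg, map_neg] at h2
    linear_combination h2 + ge (-c) * h3
  have hne : ∀ᶠ z : ℂ in 𝓝 0, algebraMap L ℂ c + z ≠ 0 := by
    have h2 : Continuous fun z : ℂ => algebraMap L ℂ c + z := by fun_prop
    exact h2.continuousAt.eventually_ne (by simpa using hc')
  have hG : GFn (C c⁻¹ * ge (-c) : L⟦X⟧) := (GFn.const _).mul (GFn_Bn _ _)
  filter_upwards [vl_der (GFn_lg c), vl_mul ((GFn.const c).add GFn.X) hG, vl_add (GFn.const c) GFn.X, hne] with z hz h2 h3 h4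
  rw [h1, h3, vl_C, vl_X] at h2
  have h9 := vl_C (1 : L) z
  rw [map_one, map_one] at h9
  rw [h9] at h2
  rw [lg, der_Pr] at hz
  have h5 : 1 / (algebraMap L ℂ c + z) = VL (C c⁻¹ * ge (-c)) z := by
    rw [div_eq_iff h4, h2]
    ring
  rw [h5]
  exact hz

lemma lg_zero (c : L) : VL (lg c) 0 = 0 := by
  rw [vl_zero, lg, coeff_Pr_zero, map_zero]

/-- the exponential of the logarithm -/
theorem lg_exp {c : L} (hc : c ≠ 0) : ∀ᶠ z : ℂ in 𝓝 0, algebraMap L ℂ c * Complex.exp (VL (lg c) z) = algebraMap L ℂ c + z := by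
  have hc' : algebraMap L ℂ c ≠ 0 := (map_ne_zero_iff _ (algebraMap L ℂ).injective).2 hc
  have hne : ∀ᶠ z : ℂ in 𝓝 0, algebraMap L ℂ c + z ≠ 0 := by
    have h2 : Continuous fun z : ℂ => algebraMap L ℂ c + z := by fun_prop
    exact h2.continuousAt.eventually_ne (by simpa using hc')
  obtain ⟨r, hr, hball⟩ := Metric.eventually_nhds_iff_ball.1 ((lg_der hc).and hne)
  have hd : ∀ z ∈ Metric.ball (0 : ℂ) r, HasDerivAt (fun z => Complex.exp (-VL (lg c) z) * (algebraMap L ℂ c + z)) 0 z := by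
    intro z hz
    obtain ⟨h1, h2⟩ := hball z hz
    have h3 : HasDerivAt (fun z => Complex.exp (-VL (lg c) z)) (Complex.exp (-VL (lg c) z) * -(1 / (algebraMap L ℂ c + z))) z :=
      h1.neg.cexp
    have h4 : HasDerivAt (fun z : ℂ => algebraMap L ℂ c + z) 1 z := (hasDerivAt_id z).const_add _
    have h5 := h3.mul h4
    have h6 : Complex.exp (-VL (lg c) z) * -(1 / (algebraMap L ℂ c + z)) * (algebraMap L ℂ c + z) +
        Complex.exp (-VL (lg c) z) * 1 = 0 := by
      field_simp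
      ring
    rw [h6] at h5
    exact h5
  filter_upwards [Metric.ball_mem_nhds (0 : ℂ) hr] with z hz
  have h1 := Metric.isOpen_ball.is_const_of_deriv_eq_zero (convex_ball (0 : ℂ) r).isPreconnected
    (fun x hx => (hd x hx).differentiableAt.differentiableWithinAt) (fun x hx => (hd x hx).deriv) hz
    (Metric.mem_ball_self hr)
  simp only [lg_zero, neg_zero, Complex.exp_zero, add_zero, one_mul] at h1
  rw [Complex.exp_neg] at h1
  have h2 := Complex.exp_ne_zero (VL (lg c) z)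
  field_simp at h1
  rw [mul_comm]
  exact h1.symm

end Pool.Agent.NH25.EL
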